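import Mathlib
import Pool.Agent.TH161.LW.Count

/-!
# Project BF: beyond the Brightwell–Felsner–Trotter constant.  Definitions and statements.

A linear extension of `α` is a strictly monotone bijection `σ : α ≃ Fin n`.  `gap x y σ = σ y - σ x`.
`nn p` is the number of linear extensions with the property `p`.
A step is a proposition `S_…`.
-/

set_option autoImplicit false

open Finset
open scoped Classical

namespace Pool.Agent.Y491.BF

open Pool.Agent.TH161.LW

section defs

variable (α : Type) [Fintype α] [PartialOrder α]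

/-- the linear extensions -/
noncomputable def LE : Finset (α ≃ Fin (Fintype.card α)) := univ.filter fun σ => StrictMono ⇑σ

variable {α}

/-- the position of `y` minus the position of `x` -/
def gap (x y : α) (σ : α ≃ Fin (Fintype.card α)) : ℤ := ((σ y : ℕ) : ℤ) - ((σ x : ℕ) : ℤ)

/-- number of linear extensions with a property -/
noncomputable def nn (p : (α ≃ Fin (Fintype.card α)) → Prop) : ℕ := ((LE α).filter p).card

/-- sum over the linear extensions of the positive parts of the gaps -/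
noncomputable def Tp (x y : α) : ℝ := ∑ σ ∈ LE α, max ((gap x y σ : ℤ) : ℝ) 0

/-- number of linear extensions of the subposet `S` -/
noncomputable def eS (S : Finset α) : ℕ := eN {a : α // a ∈ S}

/-- lower sets, as finsets -/
def Low (S : Finset α) : Prop := ∀ a b : α, a ≤ b → b ∈ S → a ∈ S

/-- upper sets, as finsets -/
def Upp (S : Finset α) : Prop := ∀ a b : α, a ≤ b → a ∈ S → b ∈ S

end defs

/-- (SWAP) exchanging two adjacent incomparable elements -/
def S_SWAP : Prop := ∀ (α : Type) [Fintype α] [PartialOrder α] (x y : α), ¬ x ≤ y → ¬ y ≤ x →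
  ∀ p : (α ≃ Fin (Fintype.card α)) → Prop,
    nn (fun σ => gap x y σ = 1 ∧ p σ) = nn (fun σ => gap x y σ = -1 ∧ p ((Equiv.swap x y).trans σ))

/-- (SH) shifting elements: gaps two and three -/
def S_SH : Prop := ∀ (α : Type) [Fintype α] [PartialOrder α] (x y : α), ¬ x ≤ y → ¬ y ≤ x →
  nn (fun σ => gap x y σ = 2) ≤ 2 * nn (fun σ => gap x y σ = 1) ∧
  nn (fun σ => gap x y σ = 2) ≤ nn (fun σ => gap x y σ = 1) + nn (fun σ => gap x y σ = 3) ∧
  nn (fun σ => gap x y σ = 3) ≤ nn (fun σ => gap x y σ = 2) + nn (fun σ => gap x y σ = 4)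

/-- (ASY) asymptotics of the numbers of order preserving maps to a large grid -/
def S_ASY : Prop := ∀ (α : Type) [Fintype α] [PartialOrder α] (x y : α), ¬ x ≤ y → ¬ y ≤ x →
  Filter.Tendsto (fun M : ℕ => ((((Om α M).filter fun f => f x = f y).card : ℕ) : ℝ) /
      (M : ℝ) ^ (Fintype.card α - 1)) Filter.atTop
    (nhds ((nn (fun σ => gap x y σ = 1) : ℝ) / ((Fintype.card α - 1).factorial : ℝ))) ∧
  Filter.Tendsto (fun M : ℕ => ((((Om α M).filter fun f => f x ≤ f y).card : ℕ) : ℝ) /
      (M : ℝ) ^ Fintype.card α) Filter.atTop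
    (nhds ((nn (fun σ => 0 < gap x y σ) : ℝ) / ((Fintype.card α).factorial : ℝ))) ∧
  Filter.Tendsto (fun M : ℕ => (∑ f ∈ Om α M, max ((f y : ℝ) - f x) 0) /
      (M : ℝ) ^ (Fintype.card α + 1)) Filter.atTop
    (nhds (Tp x y / ((Fintype.card α + 1).factorial : ℝ)))

/-- (L1) the mean gap of the reversed linear extensions -/
def S_L1 : Prop := ∀ (α : Type) [Fintype α] [PartialOrder α] (x y : α), ¬ x ≤ y → ¬ y ≤ x →
  (nn (fun σ => gap x y σ = 1) : ℝ) * Tp y x * Fintype.card α ≤
    (nn (fun σ => gap x y σ < 0) : ℝ) ^ 2 * (Fintype.card α + 1)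

/-- (L3) the mean gap of the linear extensions which are not reversed -/
def S_L3 : Prop := ∀ (α : Type) [Fintype α] [PartialOrder α] (x y : α), ¬ x ≤ y → ¬ y ≤ x →
  ∀ v : ℝ, 0 ≤ v →
  (nn (fun σ => gap x y σ < 0) : ℝ) * (v * nn (fun σ => 0 < gap x y σ) -
      nn (fun σ => gap x y σ < 0) * (Real.exp v - 1 - v)) ≤
    (nn (fun σ => gap x y σ = 1) : ℝ) * Tp x y

/-- (SM) the number of linear extensions is log-supermodular on lower sets and on upper sets -/
def S_SM : Prop := ∀ (α : Type) [Fintype α] [PartialOrder α] (I J : Finset α),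
  (Low I ∧ Low J) ∨ (Upp I ∧ Upp J) → eS I * eS J ≤ eS (I ∩ J) * eS (I ∪ J)

/-- (DEC) linear extensions with `x` before `y` before `z` are pairs of linear extensions of a lower
set and of an upper set -/
def S_DEC : Prop := ∀ (α : Type) [Fintype α] [PartialOrder α] (x y z : α), x ≠ y → y ≠ z → x ≠ z →
  ∀ p q : Bool,
    nn (fun σ => 0 < gap x y σ ∧ 0 < gap y z σ ∧ (p = true → gap x y σ = 1) ∧
      (q = true → gap y z σ = 1)) =
    ∑ I ∈ univ.filter (fun I : Finset α => Low I ∧ Low (insert y I) ∧ y ∉ I ∧ x ∈ I ∧ z ∉ I),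
      (if p = true then (if Low (I.erase x) then eS (I.erase x) else 0) else eS I) *
      (if q = true then (if Upp ((Iᶜ.erase y).erase z) then eS ((Iᶜ.erase y).erase z) else 0)
        else eS (Iᶜ.erase y))

/-- (NC) adjacency below and adjacency above are negatively correlated -/
def S_NC : Prop := ∀ (α : Type) [Fintype α] [PartialOrder α] (x y z : α), x ≠ y → y ≠ z → x ≠ z →
  nn (fun σ => gap x y σ = 1 ∧ gap y z σ = 1) * nn (fun σ => 0 < gap x y σ ∧ 0 < gap y z σ) ≤
    nn (fun σ => gap x y σ = 1 ∧ 0 < gap y z σ) * nn (fun σ => 0 < gap x y σ ∧ gap y z σ = 1)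

/-- (BOT) an element with few incomparable elements which can be moved down below `a` -/
def S_BOT : Prop := ∀ (α : Type) [Fintype α] [PartialOrder α] (a b : α) (K : ℕ), ¬ a ≤ b → ¬ b ≤ a →
  (∀ w : α, w < b → w < a) → (univ.filter fun w : α => ¬ w ≤ b ∧ ¬ b ≤ w).card < K →
  nn (α := α) (fun _ => True) ≤ K * nn (fun σ => gap b a σ > 0)

/-- (INV) sums of positions of the first `m` elements of an enumeration -/
def S_INV : Prop := ∀ (α : Type) [Fintype α] [PartialOrder α]
  (e : Fin (Fintype.card α) ≃ α) (m : ℕ), m ≤ Fintype.card α →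
  ∑ i ∈ univ.filter (fun i : Fin (Fintype.card α) => (i : ℕ) < m), ∑ σ ∈ LE α, ((σ (e i) : ℕ) : ℝ) =
    (nn (α := α) (fun _ => True) : ℝ) * (m * (m - 1) / 2 : ℝ) +
    ∑ i ∈ univ.filter (fun i : Fin (Fintype.card α) => (i : ℕ) < m),
      ∑ j ∈ univ.filter (fun j : Fin (Fintype.card α) => m ≤ (j : ℕ)),
        (nn (fun σ => gap (e j) (e i) σ > 0) : ℝ)

/-- (INVB) few incomparable pairs across a cut -/
def S_INVB : Prop := ∀ (α : Type) [Fintype α] [PartialOrder α]
  (e : Fin (Fintype.card α) ≃ α) (m K : ℕ), (∀ i j, e i < e j → i < j) →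
  (∀ x : α, (univ.filter fun w : α => ¬ w ≤ x ∧ ¬ x ≤ w).card ≤ K) →
  ∑ i ∈ univ.filter (fun i : Fin (Fintype.card α) => (i : ℕ) < m),
      ∑ j ∈ univ.filter (fun j : Fin (Fintype.card α) => m ≤ (j : ℕ)),
        (nn (fun σ => gap (e j) (e i) σ > 0) : ℝ) ≤
    (2 * K + 1) * K * (nn (α := α) (fun _ => True) : ℝ)

end Pool.Agent.Y491.BF
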