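import Pool.Agent.Y491.BF.Stm

/-!
# Project BF, statement BOT: moving an element down
-/

set_option autoImplicit false

open Finset
open scoped Classical

namespace Pool.Agent.Y491.BF.BOT

open Pool.Agent.TH161.LW

/-- move the entry at the position `p` down to the position `lo` -/
def mv (lo p x : ℕ) : ℕ := if x = p then lo else if lo ≤ x ∧ x < p then x + 1 else x

lemma mv_inj {lo p x y : ℕ} (hlo : lo ≤ p) (h : mv lo p x = mv lo p y) : x = y := by
  unfold mv at h
  split_ifs at h <;> omega

lemma mv_lt {lo p x n : ℕ} (hlo : lo ≤ p) (hp : p < n) (hx : x < n) : mv lo p x < n := by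
  unfold mv
  split_ifs <;> omega

lemma mv_self (lo p : ℕ) : mv lo p p = lo := if_pos rfl

lemma mv_mono {lo p x y : ℕ} (hx : x ≠ p) (hy : y ≠ p) (h : x < y) : mv lo p x < mv lo p y := by
  unfold mv
  rw [if_neg hx, if_neg hy]
  split_ifs <;> omega

lemma mv_above {lo p x : ℕ} (h : p < x) : mv lo p x = x := by
  unfold mv
  rw [if_neg h.ne', if_neg (by omega)]

lemma mv_below {lo p x : ℕ} (hlo : lo ≤ p) (h : x < lo) : mv lo p x = x := by
  unfold mv
  rw [if_neg (by omega), if_neg (by omega)]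

lemma lt_mv {lo p x : ℕ} (hlo : lo ≤ p) (hx : x ≠ p) (h : lo ≤ x) : lo < mv lo p x := by
  unfold mv
  rw [if_neg hx]
  split_ifs <;> omega

section moving

variable {α : Type} [Fintype α] [PartialOrder α]

/-- the first position after all elements below `b` -/
noncomputable def low (b : α) (σ : α ≃ Fin (Fintype.card α)) : ℕ :=
  (univ.filter fun w : α => w < b).sup fun w => (σ w : ℕ) + 1

lemma lt_low {b w : α} (σ : α ≃ Fin (Fintype.card α)) (h : w < b) : (σ w : ℕ) < low b σ :=
  Finset.le_sup (f := fun w => (σ w : ℕ) + 1) (Finset.mem_filter.2 ⟨Finset.mem_univ w, h⟩)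

lemma low_le {a b : α} {σ : α ≃ Fin (Fintype.card α)} (hσ : StrictMono ⇑σ)
    (h : ∀ w, w < b → w < a) : low b σ ≤ σ a := by
  refine Finset.sup_le fun w hw => ?_
  have h1 : σ w < σ a := hσ (h w (Finset.mem_filter.1 hw).2)
  exact h1

/-- the linear extension with `b` moved down -/
noncomputable def mvE (b : α) (σ : α ≃ Fin (Fintype.card α)) (h : low b σ ≤ σ b) :
    α ≃ Fin (Fintype.card α) :=
  Equiv.ofBijective (fun w => (⟨mv (low b σ) (σ b) (σ w), mv_lt h (σ b).2 (σ w).2⟩ :
      Fin (Fintype.card α)))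
    ((Fintype.bijective_iff_injective_and_card _).2 ⟨fun x y hxy => by
      have h1 := congrArg Fin.val hxy
      exact σ.injective (Fin.ext (mv_inj h h1)), by rw [Fintype.card_fin]⟩)

lemma mvE_apply (b : α) (σ : α ≃ Fin (Fintype.card α)) (h : low b σ ≤ σ b) (w : α) :
    (mvE b σ h w : ℕ) = mv (low b σ) (σ b) (σ w) := rfl

lemma mvE_mono {b : α} {σ : α ≃ Fin (Fintype.card α)} (hσ : StrictMono ⇑σ)
    (h : low b σ ≤ σ b) : StrictMono ⇑(mvE b σ h) := by
  intro x y hxy
  have h1 : (σ x : ℕ) < σ y := hσ hxy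
  show (mvE b σ h x : ℕ) < mvE b σ h y
  rw [mvE_apply, mvE_apply]
  by_cases hx : x = b
  · subst hx
    rw [mv_self, mv_above h1]
    omega
  · by_cases hy : y = b
    · subst hy
      have h2 := lt_low σ hxy
      rw [mv_self, mv_below h h2]
      exact h2
    · exact mv_mono (fun e => hx (σ.injective (Fin.ext e))) (fun e => hy (σ.injective (Fin.ext e)))
        h1

lemma nn_le_mul {p q : (α ≃ Fin (Fintype.card α)) → Prop} (K : ℕ)
    (F : (α ≃ Fin (Fintype.card α)) → ℕ × (α ≃ Fin (Fintype.card α)))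
    (h1 : ∀ σ ∈ LE α, (F σ).1 < K ∧ (F σ).2 ∈ LE α ∧ q (F σ).2)
    (h2 : ∀ σ ∈ LE α, ∀ τ ∈ LE α, F σ = F τ → σ = τ) : nn p ≤ K * nn q := by
  unfold nn
  refine (Finset.card_le_card (Finset.filter_subset _ _)).trans ?_
  rw [← Finset.card_range K, ← Finset.card_product]
  refine Finset.card_le_card_of_injOn F ?_ ?_
  · intro σ hσ
    obtain ⟨h3, h4, h5⟩ := h1 σ (Finset.mem_coe.1 hσ)
    rw [Finset.mem_coe, Finset.mem_product, Finset.mem_range, Finset.mem_filter]
    exact ⟨h3, h4, h5⟩
  · intro σ hσ τ hτ heq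
    exact h2 σ (Finset.mem_coe.1 hσ) τ (Finset.mem_coe.1 hτ) heq

end moving

theorem t_BOT : S_BOT := by
  intro α _ _ a b K hab hba hw hK
  have hmono : ∀ σ ∈ LE α, StrictMono ⇑σ := fun σ hσ => (Finset.mem_filter.1 hσ).2
  have hlow : ∀ σ ∈ LE α, low b σ ≤ σ b := fun σ hσ => low_le (hmono σ hσ) fun _ h => h
  refine nn_le_mul K (fun σ => if h : low b σ ≤ σ b then
    ((σ b : ℕ) - low b σ, mvE b σ h) else (0, σ)) ?_ ?_
  · intro σ hσ
    have h1 := hlow σ hσ
    have h2 := hmono σ hσ
    simp only [dif_pos h1]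
    refine ⟨?_, ?_, ?_⟩
    · refine lt_of_le_of_lt ?_ hK
      rw [← Nat.card_Ico]
      refine Finset.card_le_card_of_injOn (fun q => if h : q < Fintype.card α then
        σ.symm ⟨q, h⟩ else b) ?_ ?_
      · intro q hq
        rw [Finset.mem_coe, Finset.mem_Ico] at hq
        have hq' : q < Fintype.card α := hq.2.trans (σ b).2
        simp only [dif_pos hq']
        rw [Finset.mem_coe, Finset.mem_filter]
        have e : (σ (σ.symm ⟨q, hq'⟩) : ℕ) = q := by rw [Equiv.apply_symm_apply]
        refine ⟨Finset.mem_univ _, fun h => ?_, fun h => ?_⟩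
        · rcases h.lt_or_eq with h3 | h3
          · have h4 := lt_low σ h3
            rw [e] at h4
            omega
          · rw [h3] at e
            omega
        · have h3 : (σ b : ℕ) ≤ σ (σ.symm ⟨q, hq'⟩) := h2.monotone h
          rw [e] at h3
          omega
      · intro q hq q' hq' heq
        rw [Finset.mem_coe, Finset.mem_Ico] at hq hq'
        have h3 : q < Fintype.card α := hq.2.trans (σ b).2
        have h4 : q' < Fintype.card α := hq'.2.trans (σ b).2
        simp only [dif_pos h3, dif_pos h4] at heq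
        exact congrArg Fin.val (σ.symm.injective heq)
    · exact Finset.mem_filter.2 ⟨Finset.mem_univ _, mvE_mono h2 h1⟩
    · have h3 : low b σ ≤ σ a := low_le h2 hw
      have h4 : (σ a : ℕ) ≠ σ b := fun e => hab (σ.injective (Fin.ext e)).le
      have h5 := lt_mv h1 h4 h3
      have h6 : (mvE b σ h1 b : ℕ) = low b σ := by rw [mvE_apply, mv_self]
      have h7 : (mvE b σ h1 a : ℕ) = mv (low b σ) (σ b) (σ a) := mvE_apply _ _ _ _
      show gap b a (mvE b σ h1) > 0
      unfold gap
      rw [h6, h7]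
      omega
  · intro σ hσ τ hτ heq
    have h1 := hlow σ hσ
    have h2 := hlow τ hτ
    simp only [dif_pos h1, dif_pos h2] at heq
    have h3 := congrArg Prod.fst heq
    have h4 := congrArg Prod.snd heq
    simp only at h3 h4
    have h5 : low b σ = low b τ := by
      have h6 := congrArg (fun e : α ≃ Fin (Fintype.card α) => (e b : ℕ)) h4
      simp only [mvE_apply, mv_self] at h6
      exact h6
    have h6 : (σ b : ℕ) = τ b := by omega
    apply Equiv.ext
    intro w
    have h7 := congrArg (fun e : α ≃ Fin (Fintype.card α) => (e w : ℕ)) h4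
    simp only [mvE_apply] at h7
    rw [← h5, ← h6] at h7
    exact Fin.ext (mv_inj h1 h7)

end Pool.Agent.Y491.BF.BOT
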