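import Pool.Agent.Y491.BF.Stm

/-!
Project BF (helper491), job DEC (helper555): linear extensions with `x` before `y` before `z` are
pairs of linear extensions of a lower set and of an upper set.
-/

set_option autoImplicit false

open Finset
open scoped Classical

namespace Pool.Agent.Y491.BF.DEC

open Pool.Agent.TH161.LW Pool.Agent.Y491.BF

/-- the number of elements with a property -/
noncomputable def cnt {β : Type} (F : Finset β) (R : β → Prop) : ℕ := (F.filter R).card

theorem cnt_def {β : Type} (F : Finset β) (R : β → Prop) [DecidablePred R] :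
    (F.filter R).card = cnt F R := by
  unfold cnt
  congr

theorem cnt_congr {β : Type} {F : Finset β} {P R : β → Prop} (h : ∀ a ∈ F, P a ↔ R a) :
    cnt F P = cnt F R := by
  unfold cnt
  rw [Finset.filter_congr h]

theorem cnt_true {β : Type} (F : Finset β) : cnt F (fun _ => True) = F.card := by
  rw [← cnt_def, Finset.filter_true]

theorem cnt_zero {β : Type} {F : Finset β} {P : β → Prop} (h : ∀ a ∈ F, ¬ P a) :
    cnt F P = 0 := by
  unfold cnt
  rw [Finset.card_eq_zero, Finset.filter_eq_empty_iff]
  intro a ha
  exact h a ha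

section

variable {α : Type} [Fintype α] [PartialOrder α]

/-- `f` is a linear extension of the subposet `S`, extended by zero -/
def PS (S : Finset α) (f : α → ℕ) : Prop :=
  (∀ a, a ∉ S → f a = 0) ∧ (∀ a ∈ S, f a < S.card) ∧ (∀ a ∈ S, ∀ b ∈ S, f a = f b → a = b) ∧
    ∀ a ∈ S, ∀ b ∈ S, a < b → f a < f b

/-- the linear extensions of `S` as functions -/
noncomputable def Lf (S : Finset α) : Finset (α → ℕ) :=
  (Fintype.piFinset fun _ : α => range (Fintype.card α + 1)).filter (PS S)

theorem mem_Lf (S : Finset α) (f : α → ℕ) : f ∈ Lf S ↔ PS S f := by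
  unfold Lf
  rw [Finset.mem_filter, Fintype.mem_piFinset]
  refine ⟨fun h => h.2, fun h => ⟨fun a => ?_, h⟩⟩
  rw [Finset.mem_range]
  by_cases ha : a ∈ S
  · have h1 := h.2.1 a ha
    have h2 := Finset.card_le_univ S
    omega
  · rw [h.1 a ha]
    omega

theorem PS.surj {S : Finset α} {f : α → ℕ} (h : PS S f) (k : ℕ) (hk : k < S.card) :
    ∃ a ∈ S, f a = k := by
  have hsub : S.image f ⊆ range S.card := by
    intro v hv
    obtain ⟨a, ha, rfl⟩ := Finset.mem_image.mp hv
    exact Finset.mem_range.mpr (h.2.1 a ha)
  have hc : (range S.card).card ≤ (S.image f).card := by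
    rw [Finset.card_range, Finset.card_image_of_injOn]
    intro a ha b hb hab
    exact h.2.2.1 a ha b hb hab
  have heq := Finset.eq_of_subset_of_card_le hsub hc
  have : k ∈ S.image f := by rw [heq]; exact Finset.mem_range.mpr hk
  obtain ⟨a, ha, h1⟩ := Finset.mem_image.mp this
  exact ⟨a, ha, h1⟩

theorem eS_eq (S : Finset α) : eS S = (Lf S).card := by
  unfold eS
  rw [eN_eq]
  have hcard : Fintype.card {a : α // a ∈ S} = S.card := Fintype.card_coe S
  refine Finset.card_bij (fun σ _ => fun a => if h : a ∈ S then ((σ ⟨a, h⟩ : Fin _) : ℕ) else 0)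
    ?_ ?_ ?_
  · intro σ hσ
    have hm := (Finset.mem_filter.mp hσ).2
    rw [mem_Lf]
    refine ⟨fun a ha => by simp [ha], fun a ha => ?_, fun a ha b hb hab => ?_,
      fun a ha b hb hab => ?_⟩
    · simp only [ha, dite_true]
      have := (σ ⟨a, ha⟩).2
      omega
    · simp only [ha, hb, dite_true] at hab
      have h1 : σ ⟨a, ha⟩ = σ ⟨b, hb⟩ := Fin.ext hab
      have h2 := σ.injective h1
      exact congrArg Subtype.val h2
    · simp only [ha, hb, dite_true]
      have h1 : (⟨a, ha⟩ : {a : α // a ∈ S}) < ⟨b, hb⟩ := hab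
      exact hm h1
  · intro σ _ τ _ hst
    ext a
    have := congrFun hst a.1
    simp only [a.2, dite_true] at this
    exact this
  · intro f hf
    rw [mem_Lf] at hf
    let g : {a : α // a ∈ S} → Fin (Fintype.card {a : α // a ∈ S}) :=
      fun a => ⟨f a.1, by have := hf.2.1 a.1 a.2; omega⟩
    have hg : Function.Bijective g := by
      rw [Fintype.bijective_iff_injective_and_card]
      refine ⟨fun a b hab => ?_, by simp⟩
      have h1 : f a.1 = f b.1 := congrArg Fin.val hab
      exact Subtype.ext (hf.2.2.1 a.1 a.2 b.1 b.2 h1)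
    refine ⟨Equiv.ofBijective g hg, ?_, ?_⟩
    · rw [Finset.mem_filter]
      refine ⟨by simp, fun a b hab => ?_⟩
      exact hf.2.2.2 a.1 a.2 b.1 b.2 hab
    · funext a
      by_cases ha : a ∈ S
      · simp [ha, g]
      · simp [ha, hf.1 a ha]

/-- first `S`, then `T` -/
noncomputable def glue (S T : Finset α) (f g : α → ℕ) : α → ℕ := fun a =>
  if a ∈ S then f a else if a ∈ T then S.card + g a else 0

theorem glue_S {S T : Finset α} {f g : α → ℕ} {a : α} (ha : a ∈ S) : glue S T f g a = f a := by
  simp [glue, ha]

theorem glue_T {S T : Finset α} (hd : Disjoint S T) {f g : α → ℕ} {a : α} (ha : a ∈ T) :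
    glue S T f g a = S.card + g a := by
  have : a ∉ S := fun h => Finset.disjoint_left.mp hd h ha
  simp [glue, ha, this]

theorem PS.glue {S T : Finset α} (hd : Disjoint S T) (hst : ∀ s ∈ S, ∀ t ∈ T, ¬ t < s)
    {f g : α → ℕ} (hf : PS S f) (hg : PS T g) : PS (S ∪ T) (glue S T f g) := by
  have hc : (S ∪ T).card = S.card + T.card := Finset.card_union_of_disjoint hd
  refine ⟨fun a ha => ?_, fun a ha => ?_, fun a ha b hb hab => ?_, fun a ha b hb hab => ?_⟩
  · rw [Finset.mem_union, not_or] at ha
    simp [DEC.glue, ha.1, ha.2]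
  · rw [hc]
    rcases Finset.mem_union.mp ha with h | h
    · rw [glue_S h]
      have := hf.2.1 a h
      omega
    · rw [glue_T hd h]
      have := hg.2.1 a h
      omega
  · rcases Finset.mem_union.mp ha with h | h <;> rcases Finset.mem_union.mp hb with h' | h'
    · rw [glue_S h, glue_S h'] at hab
      exact hf.2.2.1 a h b h' hab
    · rw [glue_S h, glue_T hd h'] at hab
      have := hf.2.1 a h
      omega
    · rw [glue_T hd h, glue_S h'] at hab
      have := hf.2.1 b h'
      omega
    · rw [glue_T hd h, glue_T hd h'] at hab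
      exact hg.2.2.1 a h b h' (by omega)
  · rcases Finset.mem_union.mp ha with h | h <;> rcases Finset.mem_union.mp hb with h' | h'
    · rw [glue_S h, glue_S h']
      exact hf.2.2.2 a h b h' hab
    · rw [glue_S h, glue_T hd h']
      have := hf.2.1 a h
      omega
    · exact absurd hab (hst b h' a h)
    · rw [glue_T hd h, glue_T hd h']
      have := hg.2.2.2 a h b h' hab
      omega

/-- the number of linear extensions of `S ∪ T` which start with `S` -/
theorem split {S T : Finset α} (hd : Disjoint S T) (hst : ∀ s ∈ S, ∀ t ∈ T, ¬ t < s)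
    (P Q R : (α → ℕ) → Prop)
    (hR : ∀ f g, PS S f → PS T g → (R (glue S T f g) ↔ P f ∧ Q g)) :
    cnt (Lf (S ∪ T)) (fun h => (∀ s ∈ S, h s < S.card) ∧ R h) =
      cnt (Lf S) P * cnt (Lf T) Q := by
  rw [← cnt_def, ← cnt_def, ← cnt_def, ← Finset.card_product]
  symm
  have hc : (S ∪ T).card = S.card + T.card := Finset.card_union_of_disjoint hd
  refine Finset.card_bij (fun p _ => glue S T p.1 p.2) ?_ ?_ ?_
  · rintro ⟨f, g⟩ hp
    obtain ⟨h1, h2⟩ := Finset.mem_product.mp hp
    obtain ⟨hf, hPf⟩ := Finset.mem_filter.mp h1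
    obtain ⟨hg, hQg⟩ := Finset.mem_filter.mp h2
    rw [mem_Lf] at hf hg
    rw [Finset.mem_filter, mem_Lf]
    refine ⟨PS.glue hd hst hf hg, fun s hs => ?_, (hR f g hf hg).mpr ⟨hPf, hQg⟩⟩
    rw [glue_S hs]
    exact hf.2.1 s hs
  · rintro ⟨f, g⟩ hp ⟨f', g'⟩ hp' heq
    obtain ⟨h1, h2⟩ := Finset.mem_product.mp hp
    obtain ⟨h1', h2'⟩ := Finset.mem_product.mp hp'
    have hf := (mem_Lf _ _).mp (Finset.mem_filter.mp h1).1
    have hg := (mem_Lf _ _).mp (Finset.mem_filter.mp h2).1
    have hf' := (mem_Lf _ _).mp (Finset.mem_filter.mp h1').1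
    have hg' := (mem_Lf _ _).mp (Finset.mem_filter.mp h2').1
    simp only at hf hg hf' hg' heq
    congr 1
    · funext a
      by_cases ha : a ∈ S
      · have := congrFun heq a
        rwa [glue_S ha, glue_S ha] at this
      · rw [hf.1 a ha, hf'.1 a ha]
    · funext a
      by_cases ha : a ∈ T
      · have := congrFun heq a
        rw [glue_T hd ha, glue_T hd ha] at this
        omega
      · rw [hg.1 a ha, hg'.1 a ha]
  · intro h hh
    obtain ⟨h1, h2, h3⟩ := Finset.mem_filter.mp hh
    rw [mem_Lf] at h1
    set f : α → ℕ := fun a => if a ∈ S then h a else 0 with hfd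
    set g : α → ℕ := fun a => if a ∈ T then h a - S.card else 0 with hgd
    have hfS : ∀ a ∈ S, f a = h a := fun a ha => by simp [hfd, ha]
    have hgT : ∀ a ∈ T, g a = h a - S.card := fun a ha => by simp [hgd, ha]
    have hf : PS S f := by
      refine ⟨fun a ha => by simp [hfd, ha], fun a ha => ?_, fun a ha b hb hab => ?_,
        fun a ha b hb hab => ?_⟩
      · rw [hfS a ha]
        exact h2 a ha
      · rw [hfS a ha, hfS b hb] at hab
        exact h1.2.2.1 a (Finset.mem_union_left _ ha) b (Finset.mem_union_left _ hb) hab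
      · rw [hfS a ha, hfS b hb]
        exact h1.2.2.2 a (Finset.mem_union_left _ ha) b (Finset.mem_union_left _ hb) hab
    have hge : ∀ a ∈ T, S.card ≤ h a := by
      intro a ha
      by_contra hlt
      obtain ⟨b, hb, hfb⟩ := hf.surj (h a) (by omega)
      rw [hfS b hb] at hfb
      have := h1.2.2.1 b (Finset.mem_union_left _ hb) a (Finset.mem_union_right _ ha) hfb
      exact Finset.disjoint_left.mp hd hb (this ▸ ha)
    have hg : PS T g := by
      refine ⟨fun a ha => by simp [hgd, ha], fun a ha => ?_, fun a ha b hb hab => ?_,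
        fun a ha b hb hab => ?_⟩
      · rw [hgT a ha]
        have := h1.2.1 a (Finset.mem_union_right _ ha)
        have := hge a ha
        omega
      · rw [hgT a ha, hgT b hb] at hab
        have := hge a ha
        have := hge b hb
        exact h1.2.2.1 a (Finset.mem_union_right _ ha) b (Finset.mem_union_right _ hb) (by omega)
      · rw [hgT a ha, hgT b hb]
        have h4 := h1.2.2.2 a (Finset.mem_union_right _ ha) b (Finset.mem_union_right _ hb) hab
        have := hge a ha
        omega
    have hglue : glue S T f g = h := by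
      funext a
      by_cases ha : a ∈ S
      · rw [glue_S ha, hfS a ha]
      · by_cases ha' : a ∈ T
        · rw [glue_T hd ha', hgT a ha']
          have := hge a ha'
          omega
        · have := h1.1 a (by rw [Finset.mem_union, not_or]; exact ⟨ha, ha'⟩)
          simp [glue, ha, ha', this]
    have hPQ := (hR f g hf hg).mp (by rw [hglue]; exact h3)
    exact ⟨(f, g), Finset.mem_product.mpr ⟨Finset.mem_filter.mpr ⟨(mem_Lf _ _).mpr hf, hPQ.1⟩,
      Finset.mem_filter.mpr ⟨(mem_Lf _ _).mpr hg, hPQ.2⟩⟩, hglue⟩

theorem Lf_single (a : α) : (Lf ({a} : Finset α)).card = 1 := by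
  rw [Finset.card_eq_one]
  refine ⟨fun _ => 0, ?_⟩
  ext f
  rw [mem_Lf, Finset.mem_singleton]
  constructor
  · intro h
    funext b
    by_cases hb : b = a
    · have := h.2.1 b (by simp [hb])
      simpa using this
    · exact h.1 b (by simp [hb])
  · rintro rfl
    refine ⟨fun _ _ => rfl, fun _ _ => by simp, fun b hb c hc _ => ?_, fun b hb c hc hbc => ?_⟩
    · rw [Finset.mem_singleton] at hb hc
      rw [hb, hc]
    · rw [Finset.mem_singleton] at hb hc
      rw [hb, hc] at hbc
      exact absurd hbc (lt_irrefl _)

/-- the linear extensions of a lower set `I` with `x` at the end -/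
theorem last_eq {I : Finset α} (hI : Low I) {x : α} (hx : x ∈ I) :
    cnt (Lf I) (fun f => f x + 1 = I.card) =
      if Low (I.erase x) then eS (I.erase x) else 0 := by
  split_ifs with hlow
  · rw [eS_eq]
    have hd : Disjoint (I.erase x) {x} := by simp
    have hu : I.erase x ∪ {x} = I := by
      ext a
      simp only [Finset.mem_union, Finset.mem_erase, Finset.mem_singleton]
      constructor
      · rintro (h | rfl)
        · exact h.2
        · exact hx
      · intro h
        by_cases ha : a = x
        · exact Or.inr ha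
        · exact Or.inl ⟨ha, h⟩
    have hst : ∀ s ∈ I.erase x, ∀ t ∈ ({x} : Finset α), ¬ t < s := by
      intro s hs t ht hts
      rw [Finset.mem_singleton] at ht
      subst ht
      exact absurd (hlow t s hts.le hs) (by simp)
    have hcard : (I.erase x).card + 1 = I.card := Finset.card_erase_add_one hx
    have key := split hd hst (fun _ => True) (fun _ => True) (fun _ => True)
      (fun f g _ _ => by simp)
    rw [hu] at key
    simp only [and_true, cnt_true, Lf_single, mul_one] at key
    rw [← key]
    apply cnt_congr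
    intro f hf
    rw [mem_Lf] at hf
    constructor
    · intro hfx s hs
      have h1 := hf.2.1 s (Finset.mem_of_mem_erase hs)
      have h2 : f s ≠ f x := fun h => (Finset.ne_of_mem_erase hs)
        (hf.2.2.1 s (Finset.mem_of_mem_erase hs) x hx h)
      omega
    · intro h
      by_contra hne
      have h1 := hf.2.1 x hx
      obtain ⟨a, ha, hfa⟩ := hf.surj (I.card - 1) (by omega)
      have hax : a ≠ x := by
        rintro rfl
        omega
      have := h a (Finset.mem_erase.mpr ⟨hax, ha⟩)
      omega
  · apply cnt_zero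
    intro f hf hfx
    rw [mem_Lf] at hf
    apply hlow
    intro a b hab hb
    have hbI := Finset.mem_of_mem_erase hb
    have haI := hI a b hab hbI
    refine Finset.mem_erase.mpr ⟨?_, haI⟩
    rintro rfl
    have hlt : a < b := lt_of_le_of_ne hab (Finset.ne_of_mem_erase hb).symm
    have h1 := hf.2.2.2 a haI b hbI hlt
    have h2 := hf.2.1 b hbI
    omega

/-- the linear extensions of an upper set `F` with `z` at the beginning -/
theorem first_eq {F : Finset α} (hF : Upp F) {z : α} (hz : z ∈ F) :
    cnt (Lf F) (fun f => f z = 0) =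
      if Upp (F.erase z) then eS (F.erase z) else 0 := by
  split_ifs with hupp
  · rw [eS_eq]
    have hd : Disjoint {z} (F.erase z) := by simp
    have hu : {z} ∪ F.erase z = F := by
      ext a
      simp only [Finset.mem_union, Finset.mem_erase, Finset.mem_singleton]
      constructor
      · rintro (rfl | h)
        · exact hz
        · exact h.2
      · intro h
        by_cases ha : a = z
        · exact Or.inl ha
        · exact Or.inr ⟨ha, h⟩
    have hst : ∀ s ∈ ({z} : Finset α), ∀ t ∈ F.erase z, ¬ t < s := by
      intro s hs t ht hts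
      rw [Finset.mem_singleton] at hs
      subst hs
      exact absurd (hupp t s hts.le ht) (by simp)
    have key := split hd hst (fun _ => True) (fun _ => True) (fun _ => True)
      (fun f g _ _ => by simp)
    rw [hu] at key
    simp only [and_true, cnt_true, Lf_single, one_mul] at key
    rw [← key]
    apply cnt_congr
    intro f _
    simp
  · apply cnt_zero
    intro f hf hfz
    rw [mem_Lf] at hf
    apply hupp
    intro a b hab ha
    have haF := Finset.mem_of_mem_erase ha
    have hbF := hF a b hab haF
    refine Finset.mem_erase.mpr ⟨?_, hbF⟩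
    rintro rfl
    have hlt : a < b := lt_of_le_of_ne hab (Finset.ne_of_mem_erase ha)
    have h1 := hf.2.2.2 a haF b hbF hlt
    omega

/-- the linear extensions of `α` as functions -/
theorem LE_eq (p : (α ≃ Fin (Fintype.card α)) → Prop) (R : (α → ℕ) → Prop)
    (h : ∀ σ, p σ ↔ R (fun a => (σ a : ℕ))) : nn p = cnt (Lf (univ : Finset α)) R := by
  unfold nn LE cnt
  rw [Finset.filter_filter]
  refine Finset.card_bij (fun σ _ => fun a => ((σ a : Fin _) : ℕ)) ?_ ?_ ?_
  · intro σ hσ
    obtain ⟨_, hm, hp⟩ := Finset.mem_filter.mp hσ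
    rw [Finset.mem_filter, mem_Lf]
    refine ⟨⟨fun a ha => absurd (Finset.mem_univ a) ha, fun a _ => ?_, fun a _ b _ hab => ?_,
      fun a _ b _ hab => hm hab⟩, (h σ).mp hp⟩
    · rw [Finset.card_univ]
      exact (σ a).2
    · exact σ.injective (Fin.ext hab)
  · intro σ _ τ _ hst
    ext a
    exact congrFun hst a
  · intro f hf
    obtain ⟨hf, hRf⟩ := Finset.mem_filter.mp hf
    rw [mem_Lf] at hf
    let g : α → Fin (Fintype.card α) :=
      fun a => ⟨f a, by have := hf.2.1 a (Finset.mem_univ a); rwa [Finset.card_univ] at this⟩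
    have hg : Function.Bijective g := by
      rw [Fintype.bijective_iff_injective_and_card]
      refine ⟨fun a b hab => ?_, by simp⟩
      have h1 : f a = f b := congrArg Fin.val hab
      exact hf.2.2.1 a (Finset.mem_univ a) b (Finset.mem_univ b) h1
    refine ⟨Equiv.ofBijective g hg, ?_, rfl⟩
    rw [Finset.mem_filter]
    refine ⟨Finset.mem_univ _, fun a b hab => ?_, ?_⟩
    · exact hf.2.2.2 a (Finset.mem_univ a) b (Finset.mem_univ b) hab
    · rw [h]
      exact hRf

/-- the fibre over `I` -/
theorem fibre {I : Finset α} {x y z : α} (hI : Low I) (hyI : Low (insert y I)) (hy : y ∉ I)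
    (hx : x ∈ I) (hz : z ∉ I) (hyz : y ≠ z) (p q : Bool) :
    cnt (Lf (univ : Finset α)) (fun h => (∀ w, w ∈ I ↔ h w < h y) ∧
      (p = true → h x + 1 = h y) ∧ (q = true → h y + 1 = h z)) =
      (if p = true then (if Low (I.erase x) then eS (I.erase x) else 0) else eS I) *
      (if q = true then (if Upp ((Iᶜ.erase y).erase z) then eS ((Iᶜ.erase y).erase z) else 0)
        else eS (Iᶜ.erase y)) := by
  have hF : Upp (Iᶜ.erase y) := by
    intro a b hab ha
    rw [Finset.mem_erase, Finset.mem_compl] at ha ⊢
    refine ⟨?_, fun hb => ha.2 (hI a b hab hb)⟩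
    rintro rfl
    have := hyI a b hab (Finset.mem_insert_self _ _)
    rw [Finset.mem_insert] at this
    tauto
  have hyc : y ∈ Iᶜ := Finset.mem_compl.mpr hy
  have hzF : z ∈ Iᶜ.erase y := Finset.mem_erase.mpr ⟨hyz.symm, Finset.mem_compl.mpr hz⟩
  -- first step
  have h1 : cnt (Lf (univ : Finset α)) (fun h => (∀ w, w ∈ I ↔ h w < h y) ∧
      (p = true → h x + 1 = h y) ∧ (q = true → h y + 1 = h z)) =
      cnt (Lf I) (fun f => p = true → f x + 1 = I.card) *
      cnt (Lf Iᶜ) (fun g => g y = 0 ∧ (q = true → g z = 1)) := by
    have hd : Disjoint I Iᶜ := disjoint_compl_right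
    have hst : ∀ s ∈ I, ∀ t ∈ Iᶜ, ¬ t < s := fun s hs t ht hts =>
      (Finset.mem_compl.mp ht) (hI t s hts.le hs)
    rw [← split hd hst _ _ (fun h => (∀ w, w ∈ I ↔ h w < h y) ∧
      (p = true → h x + 1 = h y) ∧ (q = true → h y + 1 = h z)) ?_]
    · rw [Finset.union_compl]
      apply cnt_congr
      intro h hh
      rw [mem_Lf] at hh
      refine ⟨fun hR => ⟨fun s hs => ?_, hR⟩, fun hR => hR.2⟩
      -- `h y = |I|`
      have hinj : (range (h y)).card ≤ I.card := by
        have hsub : range (h y) ⊆ I.image h := by
          intro k hk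
          rw [Finset.mem_range] at hk
          have h2 := hh.2.1 y (Finset.mem_univ y)
          obtain ⟨a, _, ha⟩ := hh.surj k (by omega)
          exact Finset.mem_image.mpr ⟨a, (hR.1 a).mpr (by omega), ha⟩
        exact (Finset.card_le_card hsub).trans Finset.card_image_le
      rw [Finset.card_range] at hinj
      have := (hR.1 s).mp hs
      omega
    · intro f g hf hg
      have ex : glue I Iᶜ f g x = f x := glue_S hx
      have ey : glue I Iᶜ f g y = I.card + g y := glue_T hd hyc
      have ez : glue I Iᶜ f g z = I.card + g z := glue_T hd (Finset.mem_compl.mpr hz)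
      constructor
      · rintro ⟨h2, h3, h4⟩
        have hgy : g y = 0 := by
          by_contra hne
          have hpos : 0 < (Iᶜ : Finset α).card := Finset.card_pos.mpr ⟨y, hyc⟩
          obtain ⟨w, hw, hw0⟩ := hg.surj 0 hpos
          have h5 : glue I Iᶜ f g w = I.card + g w := glue_T hd hw
          have h6 := (h2 w).mpr (by rw [h5, ey, hw0]; omega)
          exact (Finset.mem_compl.mp hw) h6
        refine ⟨fun hp => ?_, hgy, fun hq => ?_⟩
        · have := h3 hp
          rw [ex, ey] at this
          omega
        · have := h4 hq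
          rw [ey, ez] at this
          omega
      · rintro ⟨h2, h3, h4⟩
        refine ⟨fun w => ?_, fun hp => ?_, fun hq => ?_⟩
        · constructor
          · intro hw
            rw [glue_S hw, ey]
            have := hf.2.1 w hw
            omega
          · intro hw
            by_contra hwI
            rw [glue_T hd (Finset.mem_compl.mpr hwI), ey] at hw
            omega
        · have := h2 hp
          rw [ex, ey]
          omega
        · have := h4 hq
          rw [ey, ez]
          omega
  rw [h1]
  congr 1
  · cases p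
    · simp [eS_eq, cnt_true]
    · simp only [if_true, forall_const]
      exact last_eq hI hx
  · have hd : Disjoint {y} (Iᶜ.erase y) := by simp
    have hu : {y} ∪ Iᶜ.erase y = Iᶜ := by
      ext a
      simp only [Finset.mem_union, Finset.mem_erase, Finset.mem_singleton]
      constructor
      · rintro (rfl | h)
        · exact hyc
        · exact h.2
      · intro h
        by_cases ha : a = y
        · exact Or.inl ha
        · exact Or.inr ⟨ha, h⟩
    have hst : ∀ s ∈ ({y} : Finset α), ∀ t ∈ Iᶜ.erase y, ¬ t < s := by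
      intro s hs t ht hts
      rw [Finset.mem_singleton] at hs
      subst hs
      exact absurd (hF t s hts.le ht) (by simp)
    have key := split hd hst (fun _ => True) (fun g => q = true → g z = 0)
      (fun g => q = true → g z = 1) (fun f g _ _ => by
        have ez : glue {y} (Iᶜ.erase y) f g z = 1 + g z := by
          rw [glue_T hd hzF, Finset.card_singleton]
        rw [ez]
        constructor
        · exact fun h => ⟨trivial, fun hq => by have := h hq; omega⟩
        · exact fun h hq => by have := h.2 hq; omega)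
    rw [hu] at key
    simp only [cnt_true, Lf_single, one_mul] at key
    have h2 : cnt (Lf Iᶜ) (fun g => g y = 0 ∧ (q = true → g z = 1)) =
        cnt (Lf Iᶜ) (fun h => (∀ s ∈ ({y} : Finset α), h s < ({y} : Finset α).card) ∧
          (q = true → h z = 1)) := by
      apply cnt_congr
      intro f _
      simp
    rw [h2, key]
    cases q
    · simp [eS_eq, cnt_true]
    · simp only [if_true, forall_const]
      exact first_eq hF hzF

end

theorem t_DEC : S_DEC := by
  intro α _ _ x y z hxy hyz hxz p q
  rw [LE_eq _ (fun h => h x < h y ∧ h y < h z ∧ (p = true → h x + 1 = h y) ∧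
    (q = true → h y + 1 = h z)) ?_]
  · rw [← cnt_def]
    have hmaps : ∀ h ∈ (Lf (univ : Finset α)).filter (fun h => h x < h y ∧ h y < h z ∧
        (p = true → h x + 1 = h y) ∧ (q = true → h y + 1 = h z)),
        (univ.filter fun w => h w < h y) ∈
          univ.filter (fun I : Finset α => Low I ∧ Low (insert y I) ∧ y ∉ I ∧ x ∈ I ∧ z ∉ I) := by
      intro h hh
      obtain ⟨h1, h2, h3, h4, h5⟩ := Finset.mem_filter.mp hh
      rw [mem_Lf] at h1
      have hmono : ∀ a b, a ≤ b → h a ≤ h b := by
        intro a b hab
        rcases hab.lt_or_eq with h6 | h6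
        · exact (h1.2.2.2 a (Finset.mem_univ a) b (Finset.mem_univ b) h6).le
        · rw [h6]
      rw [Finset.mem_filter]
      refine ⟨Finset.mem_univ _, ?_, ?_, ?_, ?_, ?_⟩
      · intro a b hab hb
        rw [Finset.mem_filter] at hb ⊢
        exact ⟨Finset.mem_univ _, (hmono a b hab).trans_lt hb.2⟩
      · intro a b hab hb
        rw [Finset.mem_insert, Finset.mem_filter] at hb ⊢
        by_cases ha : a = y
        · exact Or.inl ha
        · right
          refine ⟨Finset.mem_univ _, ?_⟩
          rcases hb with hb | hb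
          · subst hb
            exact h1.2.2.2 a (Finset.mem_univ a) b (Finset.mem_univ b) (lt_of_le_of_ne hab ha)
          · exact (hmono a b hab).trans_lt hb.2
      · simp
      · simp [h2]
      · simp [h3.le]
    rw [Finset.card_eq_sum_card_fiberwise hmaps]
    apply Finset.sum_congr rfl
    intro I hI
    obtain ⟨_, h1, h2, h3, h4, h5⟩ := Finset.mem_filter.mp hI
    rw [← fibre h1 h2 h3 h4 h5 hyz p q, Finset.filter_filter, cnt_def]
    apply cnt_congr
    intro h hh
    rw [mem_Lf] at hh
    constructor
    · rintro ⟨⟨_, _, h8, h9⟩, rfl⟩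
      exact ⟨fun w => by simp, h8, h9⟩
    · rintro ⟨h6, h7, h8⟩
      refine ⟨⟨(h6 x).mp h4, ?_, h7, h8⟩, ?_⟩
      · by_contra hlt
        have hne : h z ≠ h y := fun h9 => hyz (hh.2.2.1 z (Finset.mem_univ z) y
          (Finset.mem_univ y) h9).symm
        exact h5 ((h6 z).mpr (by omega))
      · ext w
        rw [Finset.mem_filter, h6 w]
        simp
  · intro σ
    unfold gap
    beta_reduce
    constructor
    · rintro ⟨h1, h2, h3, h4⟩
      refine ⟨by omega, by omega, fun hp => ?_, fun hq => ?_⟩
      · have := h3 hp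
        omega
      · have := h4 hq
        omega
    · rintro ⟨h1, h2, h3, h4⟩
      refine ⟨by omega, by omega, fun hp => ?_, fun hq => ?_⟩
      · have := h3 hp
        omega
      · have := h4 hq
        omega

end Pool.Agent.Y491.BF.DEC
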