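import Pool.Agent.Y491.BF.Stm

/-!
# Sums of positions and inversions
-/

set_option autoImplicit false

open Finset
open scoped Classical

namespace Pool.Agent.Y491.BF

namespace INV

theorem key {n : ℕ} (τ : Fin n ≃ Fin n) (m : ℕ) (hm : m ≤ n) :
    ∑ i ∈ univ.filter (fun i : Fin n => (i : ℕ) < m), ((τ i : ℕ) : ℝ) =
      (m * (m - 1) / 2 : ℝ) + ∑ i ∈ univ.filter (fun i : Fin n => (i : ℕ) < m),
        ∑ j ∈ univ.filter (fun j : Fin n => m ≤ (j : ℕ)), (if τ j < τ i then (1 : ℝ) else 0) := by
  set L := univ.filter (fun i : Fin n => (i : ℕ) < m) with hL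
  set U := univ.filter (fun j : Fin n => m ≤ (j : ℕ)) with hU
  have hLc : (L.card : ℝ) = m := by
    have h1 : L.card = m := by
      rw [hL, Fin.card_filter_val_lt, min_eq_right hm]
    rw [h1]
  have h1 : ∀ i : Fin n, ((τ i : ℕ) : ℝ) = ∑ j : Fin n, (if τ j < τ i then (1 : ℝ) else 0) := by
    intro i
    rw [τ.sum_comp (fun j => if j < τ i then (1 : ℝ) else 0), Finset.sum_boole]
    have h2 : (univ.filter (fun j : Fin n => j < τ i)) = Finset.Iio (τ i) := by
      ext j; simp
    rw [h2, Fin.card_Iio]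
  have h2 : ∀ i : Fin n, ((τ i : ℕ) : ℝ) = ∑ j ∈ L, (if τ j < τ i then (1 : ℝ) else 0) +
      ∑ j ∈ U, (if τ j < τ i then (1 : ℝ) else 0) := by
    intro i
    rw [h1 i, ← Finset.sum_filter_add_sum_filter_not univ (fun j : Fin n => (j : ℕ) < m)]
    congr 1
    apply Finset.sum_congr _ (fun _ _ => rfl)
    ext j; simp [hU]
  rw [Finset.sum_congr rfl (fun i _ => h2 i), Finset.sum_add_distrib]
  congr 1
  have h3 : ∑ i ∈ L, ∑ j ∈ L, (if τ i < τ j then (1 : ℝ) else 0) =
      ∑ i ∈ L, ∑ j ∈ L, (if τ j < τ i then (1 : ℝ) else 0) := Finset.sum_comm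
  have h4 : ∑ i ∈ L, ∑ j ∈ L, (if j = i then (1 : ℝ) else 0) = m := by
    have h5 : ∀ i ∈ L, ∑ j ∈ L, (if j = i then (1 : ℝ) else 0) = 1 := by
      intro i hi
      rw [Finset.sum_ite_eq' L i (fun _ => (1 : ℝ)), if_pos hi]
    rw [Finset.sum_congr rfl h5, Finset.sum_const, nsmul_eq_mul, mul_one, hLc]
  have h6 : ∑ i ∈ L, ∑ j ∈ L, ((if τ i < τ j then (1 : ℝ) else 0) +
      (if τ j < τ i then (1 : ℝ) else 0) + (if j = i then (1 : ℝ) else 0)) = m * m := by
    have h7 : ∀ i ∈ L, ∀ j ∈ L, ((if τ i < τ j then (1 : ℝ) else 0) +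
      (if τ j < τ i then (1 : ℝ) else 0) + (if j = i then (1 : ℝ) else 0)) = 1 := by
      intro i _ j _
      rcases lt_trichotomy (τ i) (τ j) with h | h | h
      · have h8 : j ≠ i := by rintro rfl; exact lt_irrefl _ h
        rw [if_pos h, if_neg h.asymm, if_neg h8]; norm_num
      · have h8 : i = j := τ.injective h
        subst h8
        simp
      · have h8 : j ≠ i := by rintro rfl; exact lt_irrefl _ h
        rw [if_pos h, if_neg h.asymm, if_neg h8]; norm_num
    rw [Finset.sum_congr rfl (fun i hi => Finset.sum_congr rfl (h7 i hi))]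
    simp only [Finset.sum_const, nsmul_eq_mul, mul_one, hLc]
  simp only [Finset.sum_add_distrib] at h6
  rw [h3, h4] at h6
  linarith

theorem nn_sum {α : Type} [Fintype α] [PartialOrder α] (p : (α ≃ Fin (Fintype.card α)) → Prop) :
    (nn p : ℝ) = ∑ σ ∈ LE α, (if p σ then (1 : ℝ) else 0) := by
  unfold nn
  rw [Finset.sum_boole]

theorem t_INV : S_INV := by
  intro α _ _ e m hm
  rw [Finset.sum_comm]
  have h1 : ∀ σ ∈ LE α, ∑ i ∈ univ.filter (fun i : Fin (Fintype.card α) => (i : ℕ) < m),
      ((σ (e i) : ℕ) : ℝ) = (m * (m - 1) / 2 : ℝ) +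
      ∑ i ∈ univ.filter (fun i : Fin (Fintype.card α) => (i : ℕ) < m),
        ∑ j ∈ univ.filter (fun j : Fin (Fintype.card α) => m ≤ (j : ℕ)),
          (if gap (e j) (e i) σ > 0 then (1 : ℝ) else 0) := by
    intro σ _
    have h2 := key (e.trans σ) m hm
    simp only [Equiv.trans_apply] at h2
    rw [h2]
    congr 1
    refine Finset.sum_congr rfl (fun i _ => Finset.sum_congr rfl (fun j _ => ?_))
    have h3 : σ (e j) < σ (e i) ↔ gap (e j) (e i) σ > 0 := by
      unfold gap
      rw [Fin.lt_def]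
      omega
    simp only [h3]
  rw [Finset.sum_congr rfl h1, Finset.sum_add_distrib]
  congr 1
  · rw [nn_sum]
    simp only [if_true, Finset.sum_const, nsmul_eq_mul, mul_one]
  · rw [Finset.sum_comm]
    refine Finset.sum_congr rfl (fun i _ => ?_)
    rw [Finset.sum_comm]
    refine Finset.sum_congr rfl (fun j _ => ?_)
    rw [nn_sum]
    refine Finset.sum_congr rfl (fun σ _ => ?_)
    congr

theorem t_INVB : S_INVB := by
  intro α _ _ e m K he hK
  set T : ℝ := (nn (α := α) (fun _ => True) : ℝ) with hT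
  have hT0 : 0 ≤ T := by positivity
  have hle : ∀ p : (α ≃ Fin (Fintype.card α)) → Prop, (nn p : ℝ) ≤ T := by
    intro p
    rw [hT, Nat.cast_le]
    unfold nn
    apply Finset.card_le_card
    intro σ hσ
    simp only [Finset.mem_filter, and_true] at hσ ⊢
    exact hσ.1
  have hinc : ∀ i j : Fin (Fintype.card α), (i : ℕ) < m → m ≤ (j : ℕ) →
      nn (fun σ => gap (e j) (e i) σ > 0) ≠ 0 → ¬ e j ≤ e i ∧ ¬ e i ≤ e j := by
    intro i j hi hj h0
    have hij : i < j := by rw [Fin.lt_def]; omega
    obtain ⟨σ, hσ⟩ := Finset.card_pos.mp (Nat.pos_of_ne_zero h0)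
    simp only [Finset.mem_filter] at hσ
    obtain ⟨h1, h2⟩ := hσ
    have h3 : StrictMono ⇑σ := (Finset.mem_filter.mp h1).2
    have hne : e i ≠ e j := fun h => hij.ne (e.injective h)
    constructor
    · intro h4
      have h5 := he j i (lt_of_le_of_ne h4 hne.symm)
      exact absurd h5 hij.asymm
    · intro h4
      have h5 := h3 (lt_of_le_of_ne h4 hne)
      rw [Fin.lt_def] at h5
      unfold gap at h2
      omega
  have hclose : ∀ i j : Fin (Fintype.card α), i < j → ¬ e j ≤ e i → ¬ e i ≤ e j →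
      (j : ℕ) ≤ i + 2 * K + 1 := by
    intro i j hij h1 h2
    have h3 : (Finset.Ioo i j).card ≤ 2 * K := by
      have h4 : Finset.Ioo i j ⊆ ((univ.filter fun w : α => ¬ w ≤ e i ∧ ¬ e i ≤ w) ∪
          (univ.filter fun w : α => ¬ w ≤ e j ∧ ¬ e j ≤ w)).map e.symm.toEmbedding := by
        intro k hk
        rw [Finset.mem_Ioo] at hk
        rw [Finset.mem_map]
        refine ⟨e k, ?_, by simp⟩
        rw [Finset.mem_union, Finset.mem_filter, Finset.mem_filter]
        by_contra hcon
        push Not at hcon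
        obtain ⟨c1, c2⟩ := hcon
        have d1 : ¬ e k ≤ e i := by
          intro h
          have hne : e k ≠ e i := fun h' => hk.1.ne' (e.injective h')
          exact absurd (he k i (lt_of_le_of_ne h hne)) hk.1.asymm
        have d2 : ¬ e j ≤ e k := by
          intro h
          have hne : e j ≠ e k := fun h' => hk.2.ne' (e.injective h')
          exact absurd (he j k (lt_of_le_of_ne h hne)) hk.2.asymm
        have d3 := c1 (Finset.mem_univ _) d1
        have d4 : e k ≤ e j := by
          by_contra h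
          exact d2 (c2 (Finset.mem_univ _) h)
        exact h2 (d3.trans d4)
      refine (Finset.card_le_card h4).trans ?_
      rw [Finset.card_map]
      refine (Finset.card_union_le _ _).trans ?_
      have := hK (e i)
      have := hK (e j)
      omega
    rw [Fin.card_Ioo] at h3
    omega
  -- inner sums
  have hin : ∀ i ∈ univ.filter (fun i : Fin (Fintype.card α) => (i : ℕ) < m),
      ∑ j ∈ univ.filter (fun j : Fin (Fintype.card α) => m ≤ (j : ℕ)),
        (nn (fun σ => gap (e j) (e i) σ > 0) : ℝ) ≤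
      if m ≤ (i : ℕ) + 2 * K + 1 then K * T else 0 := by
    intro i hi
    have hi' : (i : ℕ) < m := (Finset.mem_filter.mp hi).2
    split_ifs with hmi
    · have h1 : ∑ j ∈ univ.filter (fun j : Fin (Fintype.card α) => m ≤ (j : ℕ)),
          (nn (fun σ => gap (e j) (e i) σ > 0) : ℝ) ≤
          ∑ j ∈ univ.filter (fun j : Fin (Fintype.card α) => ¬ e j ≤ e i ∧ ¬ e i ≤ e j), T := by
        rw [← Finset.sum_filter_add_sum_filter_not
          (univ.filter (fun j : Fin (Fintype.card α) => m ≤ (j : ℕ)))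
          (fun j => ¬ e j ≤ e i ∧ ¬ e i ≤ e j)]
        have h2 : ∑ j ∈ (univ.filter (fun j : Fin (Fintype.card α) => m ≤ (j : ℕ))).filter
            (fun j => ¬ (¬ e j ≤ e i ∧ ¬ e i ≤ e j)),
            (nn (fun σ => gap (e j) (e i) σ > 0) : ℝ) = 0 := by
          apply Finset.sum_eq_zero
          intro j hj
          obtain ⟨h3, h4⟩ := Finset.mem_filter.mp hj
          have h5 : m ≤ (j : ℕ) := (Finset.mem_filter.mp h3).2
          by_contra h6
          exact h4 (hinc i j hi' h5 (by exact_mod_cast h6))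
        rw [h2, add_zero]
        refine (Finset.sum_le_sum (fun j _ => hle _)).trans ?_
        apply Finset.sum_le_sum_of_subset_of_nonneg
        · intro j hj
          obtain ⟨h3, h4⟩ := Finset.mem_filter.mp hj
          exact Finset.mem_filter.mpr ⟨Finset.mem_univ _, h4⟩
        · intro _ _ _; exact hT0
      refine h1.trans ?_
      rw [Finset.sum_const, nsmul_eq_mul]
      apply mul_le_mul_of_nonneg_right _ hT0
      rw [Nat.cast_le]
      refine le_trans ?_ (hK (e i))
      apply Finset.card_le_card_of_injOn e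
      · intro j hj
        have h3 := (Finset.mem_filter.mp (Finset.mem_coe.mp hj)).2
        exact Finset.mem_coe.mpr (Finset.mem_filter.mpr ⟨Finset.mem_univ _, h3⟩)
      · exact e.injective.injOn
    · apply le_of_eq
      apply Finset.sum_eq_zero
      intro j hj
      have h5 : m ≤ (j : ℕ) := (Finset.mem_filter.mp hj).2
      by_contra h6
      obtain ⟨h7, h8⟩ := hinc i j hi' h5 (by exact_mod_cast h6)
      have h9 := hclose i j (by rw [Fin.lt_def]; omega) h7 h8
      omega
  refine (Finset.sum_le_sum hin).trans ?_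
  rw [← Finset.sum_filter, Finset.sum_const, nsmul_eq_mul, mul_assoc]
  apply mul_le_mul_of_nonneg_right _ (by positivity)
  have h1 : ((univ.filter (fun i : Fin (Fintype.card α) => (i : ℕ) < m)).filter
      (fun i : Fin (Fintype.card α) => m ≤ (i : ℕ) + 2 * K + 1)).card ≤ 2 * K + 1 := by
    have h2 : ((univ.filter (fun i : Fin (Fintype.card α) => (i : ℕ) < m)).filter
      (fun i : Fin (Fintype.card α) => m ≤ (i : ℕ) + 2 * K + 1)).card ≤
      (Finset.Ico (m - (2 * K + 1)) m).card := by
      apply Finset.card_le_card_of_injOn (fun i : Fin (Fintype.card α) => (i : ℕ))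
      · intro i hi
        obtain ⟨h3, h4⟩ := Finset.mem_filter.mp (Finset.mem_coe.mp hi)
        have h5 := (Finset.mem_filter.mp h3).2
        rw [Finset.mem_coe, Finset.mem_Ico]
        change m - (2 * K + 1) ≤ (i : ℕ) ∧ (i : ℕ) < m
        constructor <;> omega
      · intro i _ j _ h; exact Fin.ext h
    rw [Nat.card_Ico] at h2
    omega
  exact_mod_cast h1

end INV

end Pool.Agent.Y491.BF
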