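import Pool.Agent.Y491.BF.Triple

/-!
# Project BF: the global argument
-/

set_option autoImplicit false
set_option linter.unusedSectionVars false

open Finset
open scoped Classical

namespace Pool.Agent.Y491.BF

open Pool.Agent.TH161.LW

/-- the contradiction for sequences -/
lemma seq_false (J : ℕ → ℝ) (i₀ L : ℕ) (C ξ η κ ck : ℝ) (hη : 0 ≤ η)
    (hJ0 : ∀ m, 0 ≤ J m) (hJC : ∀ m, J m ≤ C) (hi₀ : J i₀ = 0)
    (ho : ck ≤ J (i₀ + 1) - J i₀)
    (h1 : ∀ i, i₀ ≤ i → i ≤ i₀ + 2 * L → J (i + 1) - J i - η ≤ J (i + 3) - J (i + 2))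
    (h2 : (J (i₀ + 3) - J (i₀ + 2)) - (J (i₀ + 1) - J i₀) ≤ ξ →
      (J (i₀ + 1) - J i₀) - κ ≤ J (i₀ + 2) - J (i₀ + 1))
    (c1 : ξ ≤ 2 * ck - κ - η) (c2 : 2 * L * η ≤ ξ / 2) (c3 : C < L * (ξ / 2)) : False := by
  -- sums of two neighbours
  have hA0 : 0 ≤ J (i₀ + 2) - J i₀ := by rw [hi₀]; have := hJ0 (i₀ + 2); linarith
  have hA : ∀ j : ℕ, j ≤ 2 * L → ξ - j * η ≤ J (i₀ + 1 + j + 2) - J (i₀ + 1 + j) := by
    intro j
    induction j with
    | zero =>
      intro _
      have hs := h1 i₀ le_rfl (by omega)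
      have e1 : i₀ + 1 + 0 + 2 = i₀ + 3 := by ring
      have e2 : i₀ + 1 + 0 = i₀ + 1 := by ring
      rw [e1, e2]
      push_cast
      rcases le_or_gt ((J (i₀ + 3) - J (i₀ + 2)) - (J (i₀ + 1) - J i₀)) ξ with h | h
      · have := h2 h
        linarith
      · linarith
    | succ j ih =>
      intro hj
      have hs := h1 (i₀ + 1 + j) (by omega) (by omega)
      have hi := ih (by omega)
      have e1 : i₀ + 1 + (j + 1) + 2 = i₀ + 1 + j + 3 := by ring
      have e2 : i₀ + 1 + (j + 1) = i₀ + 1 + j + 1 := by ring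
      rw [e1, e2]
      push_cast
      linarith
  have hsum : ∀ t : ℕ, t ≤ L → t * (ξ / 2) ≤ J (i₀ + 1 + 2 * t) - J (i₀ + 1) := by
    intro t
    induction t with
    | zero => intro _; simp
    | succ t ih =>
      intro ht
      have hi := ih (by omega)
      have hs := hA (2 * t) (by omega)
      have e1 : i₀ + 1 + 2 * (t + 1) = i₀ + 1 + 2 * t + 2 := by ring
      rw [e1]
      have h3 : ((2 * t : ℕ) : ℝ) * η ≤ 2 * L * η := by
        refine mul_le_mul_of_nonneg_right ?_ hη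
        push_cast
        have : (t : ℝ) ≤ L := by exact_mod_cast (by omega : t ≤ L)
        linarith
      push_cast at h3 hs ⊢
      linarith
  have h4 := hsum L le_rfl
  have h5 := hJC (i₀ + 1 + 2 * L)
  have h6 := hJ0 (i₀ + 1)
  linarith

section glob

variable {α : Type} [Fintype α] [PartialOrder α]

lemma pp_zero {p : (α ≃ Fin (Fintype.card α)) → Prop} (h : ∀ σ ∈ LE α, ¬ p σ) : pp p = 0 := by
  have hz : nn p = 0 := by
    unfold nn
    rw [Finset.card_eq_zero, Finset.filter_eq_empty_iff]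
    exact h
  unfold pp
  rw [hz]
  simp

/-- expected number of inversions across a cut -/
noncomputable def JJ (e : Fin (Fintype.card α) ≃ α) (m : ℕ) : ℝ :=
  ∑ i ∈ univ.filter (fun i : Fin (Fintype.card α) => (i : ℕ) < m),
    ∑ j ∈ univ.filter (fun j : Fin (Fintype.card α) => m ≤ (j : ℕ)), pp fun σ => gap (e j) (e i) σ > 0

lemma JJ_nonneg (e : Fin (Fintype.card α) ≃ α) (m : ℕ) : 0 ≤ JJ e m :=
  Finset.sum_nonneg fun _ _ => Finset.sum_nonneg fun _ _ => pp_nonneg _

lemma JJ_eq (e : Fin (Fintype.card α) ≃ α) (m : ℕ) : JJ e m =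
    (∑ i ∈ univ.filter (fun i : Fin (Fintype.card α) => (i : ℕ) < m),
      ∑ j ∈ univ.filter (fun j : Fin (Fintype.card α) => m ≤ (j : ℕ)),
        (nn (fun σ => gap (e j) (e i) σ > 0) : ℝ)) / (LE α).card := by
  unfold JJ pp
  rw [Finset.sum_div]
  refine Finset.sum_congr rfl fun i _ => ?_
  rw [Finset.sum_div]

lemma JJ_le (hINVB : S_INVB) (e : Fin (Fintype.card α) ≃ α) (m K : ℕ) (he : ∀ i j, e i < e j → i < j)
    (hK : ∀ x : α, (univ.filter fun w : α => ¬ w ≤ x ∧ ¬ x ≤ w).card ≤ K) :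
    JJ e m ≤ (2 * K + 1) * K := by
  rw [JJ_eq, div_le_iff₀ Npos]
  have := hINVB α e m K he hK
  rw [nn_true] at this
  exact this

lemma HH_eq (hINV : S_INV) (e : Fin (Fintype.card α) ≃ α) (m : ℕ) (hm : m < Fintype.card α) :
    HH (e ⟨m, hm⟩) = m + (JJ e (m + 1) - JJ e m) := by
  have key : ∀ m : ℕ, m ≤ Fintype.card α →
      ∑ i ∈ univ.filter (fun i : Fin (Fintype.card α) => (i : ℕ) < m), HH (e i) =
        (m * (m - 1) / 2 : ℝ) + JJ e m := by
    intro m hm
    have h := hINV α e m hm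
    unfold HH
    rw [← Finset.sum_div, h, JJ_eq, add_div, nn_true, mul_div_cancel_left₀ _ Npos.ne']
  have h1 := key (m + 1) hm
  have h0 := key m hm.le
  have h2 : univ.filter (fun i : Fin (Fintype.card α) => (i : ℕ) < m + 1) =
      insert (⟨m, hm⟩ : Fin (Fintype.card α)) (univ.filter fun i : Fin (Fintype.card α) => (i : ℕ) < m) := by
    ext i
    simp only [Finset.mem_filter, Finset.mem_univ, true_and, Finset.mem_insert, Fin.ext_iff]
    omega
  rw [h2, Finset.sum_insert (by simp), h0] at h1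
  push_cast at h1
  linarith

/-- an enumeration by the average height -/
lemma exists_enum : ∃ e : Fin (Fintype.card α) ≃ α, ∀ i j, i ≤ j → HH (e i) ≤ HH (e j) := by
  let g : Fin (Fintype.card α) ≃ α := (Fintype.equivFin α).symm
  let f : Fin (Fintype.card α) → ℝ := fun i => HH (g i)
  refine ⟨(Tuple.sort f).trans g, fun i j hij => ?_⟩
  exact Tuple.monotone_sort f hij

/-- the global argument -/
theorem glob (hSW : S_SWAP) (hSH : S_SH) (hL1 : S_L1) (hL3 : S_L3) (hNC : S_NC) (hBOT : S_BOT)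
    (hINV : S_INV) (hINVB : S_INVB) (K : ℕ) (hK : 0 < K) : ∃ c : ℝ, 0 < c ∧ c ≤ 1 / 10000 ∧ ∃ k : ℕ,
    ∀ (α : Type) [Fintype α] [PartialOrder α],
      (∀ x y : α, x ≠ y → pp (fun σ => gap x y σ < 0) ≤ (5 - √5) / 10 + c ∨
        pp (fun σ => gap y x σ < 0) ≤ (5 - √5) / 10 + c) →
      (∀ x : α, (univ.filter fun w : α => ¬ w ≤ x ∧ ¬ x ≤ w).card < K) →
      (∀ x w : α, ¬ w ≤ x → ¬ x ≤ w → k ≤ (univ.filter fun v : α => x < v).card) →
      (∃ x w : α, ¬ w ≤ x ∧ ¬ x ≤ w) → False := by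
  have hK' : (0 : ℝ) < K := by exact_mod_cast hK
  set ck : ℝ := 1 / K with hck
  have hck0 : 0 < ck := by positivity
  set ξ : ℝ := min 0.001 (ck / 2) with hξ
  have hξ0 : 0 < ξ := lt_min (by norm_num) (by positivity)
  have hξ1 : ξ ≤ 0.001 := min_le_left _ _
  have hξ2 : ξ ≤ ck / 2 := min_le_right _ _
  set C : ℝ := (2 * K + 1) * K with hC
  have hC0 : 0 < C := by positivity
  obtain ⟨L, hL⟩ := exists_nat_gt (2 * C / ξ)
  have hL0 : (0 : ℝ) < L := lt_trans (by positivity) hL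
  have c3 : C < L * (ξ / 2) := by
    rw [div_lt_iff₀ hξ0] at hL
    linarith
  set c : ℝ := min (1 / 10000) (min (ξ / (100 * L)) (ck / 100)) with hc
  have hc0 : 0 < c := lt_min (by norm_num) (lt_min (by positivity) (by positivity))
  have hc1 : c ≤ 1 / 10000 := min_le_left _ _
  have hc2 : c ≤ ξ / (100 * L) := (min_le_right _ _).trans (min_le_left _ _)
  have hc3 : c ≤ ck / 100 := (min_le_right _ _).trans (min_le_right _ _)
  obtain ⟨k₀, hk₀⟩ := exists_nat_gt (1 / c)
  refine ⟨c, hc0, hc1, k₀ + 2 * L + 5, fun α _ _ hunb hthin hroom hinc => ?_⟩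
  obtain ⟨e, he⟩ := exists_enum (α := α)
  -- the size
  have hnk : k₀ + 2 * L + 5 ≤ Fintype.card α := by
    obtain ⟨x, w, hw1, hw2⟩ := hinc
    exact (hroom x w hw1 hw2).trans (Finset.card_le_univ _)
  have hn0 : (0 : ℝ) < Fintype.card α := by exact_mod_cast (by omega : 0 < Fintype.card α)
  have hu : 1 / (Fintype.card α : ℝ) ≤ c := by
    rw [div_le_iff₀ hn0]
    rw [div_lt_iff₀ hc0] at hk₀
    have : (k₀ : ℝ) ≤ Fintype.card α := by exact_mod_cast (by omega : k₀ ≤ Fintype.card α)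
    nlinarith
  have hu' : 1 / (Fintype.card α : ℝ) ≤ 1 / 10000 := hu.trans hc1
  have hu0 : 0 ≤ 1 / (Fintype.card α : ℝ) := by positivity
  -- order of the enumeration
  have hrev : ∀ i j : Fin (Fintype.card α), i < j → pp (fun σ => gap (e i) (e j) σ < 0) ≤ (5 - √5) / 10 + c := by
    intro i j hij
    have hne : e i ≠ e j := fun h => hij.ne (e.injective h)
    rcases hunb (e i) (e j) hne with h | h
    · exact h
    · exfalso
      have := pair_pos hSW hSH hL1 hL3 rfl hc0.le hc1 hu' hne.symm h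
      have h2 := he i j hij.le
      linarith
  have hLE : ∀ i j : Fin (Fintype.card α), e i < e j → i < j := by
    intro i j h
    by_contra h2
    have h3 := he j i (not_lt.mp h2)
    have h4 := cmp_ge h
    linarith
  -- the first element with an incomparable partner
  have hex : ∃ i : ℕ, ∃ hi : i < Fintype.card α, ∃ w : α, ¬ w ≤ e ⟨i, hi⟩ ∧ ¬ e ⟨i, hi⟩ ≤ w := by
    obtain ⟨x, w, hw1, hw2⟩ := hinc
    refine ⟨e.symm x, (e.symm x).2, w, ?_, ?_⟩
    · simpa using hw1
    · simpa using hw2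
  obtain ⟨i₀, hi₀n, w₀, hw1, hw2, hmin⟩ : ∃ i₀ : ℕ, ∃ hi : i₀ < Fintype.card α, ∃ w : α,
      ¬ w ≤ e ⟨i₀, hi⟩ ∧ ¬ e ⟨i₀, hi⟩ ≤ w ∧
      ∀ i : Fin (Fintype.card α), (i : ℕ) < i₀ → ∀ w : α, w ≤ e i ∨ e i ≤ w := by
    obtain ⟨h1, w, h2, h3⟩ := Nat.find_spec hex
    refine ⟨Nat.find hex, h1, w, h2, h3, fun i hi w => ?_⟩
    by_contra h
    push Not at h
    exact Nat.find_min hex hi ⟨i.2, w, h.1, h.2⟩
  -- room
  have hroom' : i₀ + 2 * L + 4 ≤ Fintype.card α := by
    have h1 := hroom _ w₀ hw1 hw2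
    have h2 : (univ.filter fun v : α => e ⟨i₀, hi₀n⟩ < v).card ≤ Fintype.card α - 1 - i₀ := by
      calc (univ.filter fun v : α => e ⟨i₀, hi₀n⟩ < v).card
          ≤ ((Finset.Ioi (⟨i₀, hi₀n⟩ : Fin (Fintype.card α))).image e).card := by
            refine Finset.card_le_card fun v hv => ?_
            rw [Finset.mem_filter] at hv
            rw [Finset.mem_image]
            refine ⟨e.symm v, ?_, by simp⟩
            rw [Finset.mem_Ioi]
            exact hLE _ _ (by simpa using hv.2)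
        _ ≤ (Finset.Ioi (⟨i₀, hi₀n⟩ : Fin (Fintype.card α))).card := Finset.card_image_le
        _ = Fintype.card α - 1 - i₀ := by rw [Fin.card_Ioi]
    omega
  -- the sequence
  have hJ0 : ∀ m, 0 ≤ JJ e m := JJ_nonneg e
  have hJC : ∀ m, JJ e m ≤ C := fun m => JJ_le hINVB e m K hLE fun x => (hthin x).le
  have hJi : JJ e i₀ = 0 := by
    unfold JJ
    refine Finset.sum_eq_zero fun i hi => Finset.sum_eq_zero fun j hj => ?_
    rw [Finset.mem_filter] at hi hj
    have hij : i < j := by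
      rw [Fin.lt_def]; omega
    have hlt : e i < e j := by
      rcases hmin i hi.2 (e j) with h | h
      · exfalso
        have := hLE j i (lt_of_le_of_ne h fun h2 => hij.ne (e.injective h2).symm)
        exact absurd this (not_lt.mpr hij.le)
      · exact lt_of_le_of_ne h fun h2 => hij.ne (e.injective h2)
    refine pp_zero fun σ hσ h4 => ?_
    have h2 := gap_pos hlt hσ
    have h3 := gap_swap (e i) (e j) σ
    omega
  -- the first offset
  have hfirst : ck ≤ JJ e (i₀ + 1) - JJ e i₀ := by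
    rw [hJi, sub_zero]
    set a := e ⟨i₀, hi₀n⟩ with ha
    obtain ⟨b, hb, hbmin⟩ := Finset.exists_minimal
      (s := univ.filter fun w : α => ¬ w ≤ a ∧ ¬ a ≤ w) ⟨w₀, by simp [hw1, hw2]⟩
    rw [Finset.mem_filter] at hb
    obtain ⟨-, hb1, hb2⟩ := hb
    have hbot := hBOT α a b K hb2 hb1 (fun w hw => by
      by_contra h
      have h1 : ¬ w ≤ a := fun h2 => by
        rcases h2.lt_or_eq with h3 | h3
        · exact h h3
        · exact hb2 (h3 ▸ hw.le)
      have h2 : ¬ a ≤ w := fun h3 => hb2 (h3.trans hw.le)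
      have h4 := hbmin (Finset.mem_filter.mpr ⟨Finset.mem_univ w, h1, h2⟩) hw.le
      exact absurd (lt_of_lt_of_le hw h4) (lt_irrefl _)) (hthin b)
    have hpp : ck ≤ pp fun σ => gap b a σ > 0 := by
      rw [hck, div_le_iff₀ hK']
      unfold pp
      rw [div_mul_eq_mul_div, le_div_iff₀ Npos, one_mul]
      rw [nn_true] at hbot
      calc ((LE α).card : ℝ) ≤ ((K * nn fun σ => gap b a σ > 0 : ℕ) : ℝ) := by exact_mod_cast hbot
        _ = _ := by push_cast; ring
    refine hpp.trans ?_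
    have hj : (i₀ : ℕ) + 1 ≤ (e.symm b : ℕ) := by
      by_contra h
      have h1 : (e.symm b : ℕ) < i₀ ∨ (e.symm b : ℕ) = i₀ := by omega
      rcases h1 with h1 | h1
      · have := hmin (e.symm b) h1 a
        simp only [Equiv.apply_symm_apply] at this
        rcases this with h2 | h2
        · exact hb2 h2
        · exact hb1 h2
      · have h2 : e.symm b = ⟨i₀, hi₀n⟩ := Fin.ext h1
        have h3 : b = a := by rw [ha, ← h2]; simp
        exact hb1 (h3 ▸ le_rfl)
    unfold JJ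
    have s1 : pp (fun σ => gap b a σ > 0) ≤
        ∑ j ∈ univ.filter (fun j : Fin (Fintype.card α) => i₀ + 1 ≤ (j : ℕ)), pp fun σ => gap (e j) a σ > 0 := by
      have := Finset.single_le_sum (f := fun j : Fin (Fintype.card α) => pp fun σ => gap (e j) a σ > 0)
        (s := univ.filter (fun j : Fin (Fintype.card α) => i₀ + 1 ≤ (j : ℕ))) (fun j _ => pp_nonneg _)
        (Finset.mem_filter.mpr ⟨Finset.mem_univ (e.symm b), hj⟩)
      simpa using this
    refine s1.trans ?_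
    exact Finset.single_le_sum (f := fun i : Fin (Fintype.card α) => ∑ j ∈ univ.filter (fun j : Fin (Fintype.card α) => i₀ + 1 ≤ (j : ℕ)),
      pp fun σ => gap (e j) (e i) σ > 0) (s := univ.filter (fun i : Fin (Fintype.card α) => (i : ℕ) < i₀ + 1))
      (fun i _ => Finset.sum_nonneg fun j _ => pp_nonneg _)
      (Finset.mem_filter.mpr ⟨Finset.mem_univ (⟨i₀, hi₀n⟩ : Fin (Fintype.card α)), Nat.lt_succ_self _⟩)
  -- triples
  have htr : ∀ i : ℕ, ∀ hi : i + 2 < Fintype.card α,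
      (2 - 12 * c - 1 / (Fintype.card α : ℝ) ≤ (2 + ((JJ e (i + 3) - JJ e (i + 2)) - (JJ e (i + 1) - JJ e i)))) ∧
      ((JJ e (i + 3) - JJ e (i + 2)) - (JJ e (i + 1) - JJ e i) ≤ ξ →
        1 - ξ - 17 * c - 2 * (1 / (Fintype.card α : ℝ)) ≤ 1 + ((JJ e (i + 2) - JJ e (i + 1)) - (JJ e (i + 1) - JJ e i))) := by
    intro i hi
    have h0 : i < Fintype.card α := by omega
    have h1 : i + 1 < Fintype.card α := by omega
    have hne1 : e ⟨i, h0⟩ ≠ e ⟨i + 1, h1⟩ := fun h => by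
      have := congrArg Fin.val (e.injective h); simp at this
    have hne2 : e ⟨i + 1, h1⟩ ≠ e ⟨i + 2, hi⟩ := fun h => by
      have := congrArg Fin.val (e.injective h); simp at this
    have hne3 : e ⟨i, h0⟩ ≠ e ⟨i + 2, hi⟩ := fun h => by
      have := congrArg Fin.val (e.injective h); simp at this
    have t := triple hSW hSH hL1 hL3 hNC (d := (5 - √5) / 10 + c) rfl hc0.le hc1 hu' hne1 hne2 hne3
      (hrev _ _ (by rw [Fin.lt_def]; exact Nat.lt_succ_self i))
      (hrev _ _ (by rw [Fin.lt_def]; exact Nat.lt_succ_self (i + 1)))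
      (hrev _ _ (by rw [Fin.lt_def]; show i < i + 2; omega))
    have e0 := HH_eq hINV e i h0
    have e1 := HH_eq hINV e (i + 1) h1
    have e2 := HH_eq hINV e (i + 2) hi
    push_cast at e0 e1 e2
    have a1 : i + 1 + 1 = i + 2 := by ring
    have a2 : i + 2 + 1 = i + 3 := by ring
    rw [a1] at e1
    rw [a2] at e2
    have g1 : HH (e ⟨i + 2, hi⟩) - HH (e ⟨i, h0⟩) =
        2 + ((JJ e (i + 3) - JJ e (i + 2)) - (JJ e (i + 1) - JJ e i)) := by rw [e2, e0]; ring
    have g2 : HH (e ⟨i + 1, h1⟩) - HH (e ⟨i, h0⟩) =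
        1 + ((JJ e (i + 2) - JJ e (i + 1)) - (JJ e (i + 1) - JJ e i)) := by rw [e1, e0]; ring
    rw [g1, g2] at t
    exact ⟨t.1, fun h => t.2 ξ hξ0.le hξ1 (by linarith)⟩
  -- conclusion
  have hη1 : 2 * (L : ℝ) * (12 * c + 1 / (Fintype.card α : ℝ)) ≤ ξ / 2 := by
    have h1 : 12 * c + 1 / (Fintype.card α : ℝ) ≤ 13 * (ξ / (100 * L)) := by linarith
    calc 2 * (L : ℝ) * (12 * c + 1 / (Fintype.card α : ℝ)) ≤ 2 * (L : ℝ) * (13 * (ξ / (100 * L))) :=
          mul_le_mul_of_nonneg_left h1 (by positivity)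
      _ = 26 / 100 * ξ := by field_simp; ring
      _ ≤ ξ / 2 := by linarith
  refine seq_false (JJ e) i₀ L C ξ (12 * c + 1 / (Fintype.card α : ℝ)) (ξ + 17 * c + 2 * (1 / (Fintype.card α : ℝ))) ck
    (by linarith) hJ0 hJC hJi hfirst (fun i hi1 hi2 => ?_) (fun h => ?_) (by linarith) hη1 c3
  · have := (htr i (by omega)).1
    linarith
  · have := (htr i₀ (by omega)).2 h
    linarith

end glob

end Pool.Agent.Y491.BF
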