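import Mathlib

/-!
# Project BF: the real inequalities

`b` is the probability of the wrong order, `R` the probability that the pair is adjacent,
`Em`, `Ep` the negative and the positive part of the mean gap, `u = 1 / n`.
-/

set_option autoImplicit false

namespace Pool.Agent.Y491.BF

/-- the inequalities for an incomparable pair -/
structure PD (b R Em Ep u : ℝ) : Prop where
  R0 : 0 ≤ R
  Rb : R ≤ b
  Em0 : 0 ≤ Em
  bz : b = 0 → Em = 0
  L1 : R * Em ≤ b ^ 2 * (1 + u)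
  P1 : 5 / 2 * (1 - b) - 2 * R ≤ Ep
  P2 : 3 * (1 - b) - 4 * R ≤ Ep
  P3 : 7 / 2 * (1 - b) - 13 / 2 * R ≤ Ep
  L3 : ∀ v : ℝ, 0 ≤ v → b * (v * (1 - b) - b * (Real.exp v - 1 - v)) ≤ R * Ep

lemma exp_54 : Real.exp (5 / 4) < 3491 / 1000 := by
  have h1 : Real.exp (5 / 4) ^ 4 = Real.exp 1 ^ 5 := by
    rw [← Real.exp_nat_mul, ← Real.exp_nat_mul]; norm_num
  have h2 := Real.exp_one_lt_d9
  have h3 : Real.exp 1 ^ 5 < 2.7182818286 ^ 5 := pow_lt_pow_left₀ h2 (Real.exp_pos 1).le (by norm_num)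
  by_contra h
  push Not at h
  have h4 : (3491 / 1000 : ℝ) ^ 4 ≤ Real.exp (5 / 4) ^ 4 := pow_le_pow_left₀ (by norm_num) h 4
  rw [h1] at h4
  norm_num at h3 h4
  linarith

lemma exp_2 : Real.exp 2 < 7.4 := by
  have h1 : Real.exp 2 = Real.exp 1 ^ 2 := by
    rw [← Real.exp_nat_mul]; norm_num
  have h2 := Real.exp_one_lt_d9
  have h3 : Real.exp 1 ^ 2 < 2.7182818286 ^ 2 := pow_lt_pow_left₀ h2 (Real.exp_pos 1).le (by norm_num)
  rw [h1]
  norm_num at h3 ⊢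
  linarith

variable {b R Em Ep u : ℝ}

lemma PD.R_pos (h : PD b R Em Ep u) (hb : b ≤ 2 / 5) (hb0 : 0 < b) : 0 < R := by
  rcases h.R0.lt_or_eq with h1 | h1
  · exact h1
  · exfalso
    have h2 := h.L3 (1 / 4) (by norm_num)
    rw [← h1, zero_mul] at h2
    have h3 : Real.exp (1 / 4) ≤ 3 / 2 := by
      have h5 : Real.exp (1 / 4) ^ 4 = Real.exp 1 := by
        rw [← Real.exp_nat_mul]; norm_num
      have h6 := Real.exp_one_lt_d9
      by_contra h7
      push Not at h7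
      have h8 : (3 / 2 : ℝ) ^ 4 < Real.exp (1 / 4) ^ 4 := pow_lt_pow_left₀ h7 (by norm_num) (by norm_num)
      rw [h5] at h8
      norm_num at h6 h8
      linarith
    have h4 : 0 < 1 / 4 * (1 - b) - b * (Real.exp (1 / 4) - 1 - 1 / 4) := by nlinarith
    have := mul_pos hb0 h4
    linarith

/-- (PL) the pair lemma -/
theorem PD.pl (h : PD b R Em Ep u) (hb : b ≤ 0.2765) (hu : u ≤ 1 / 10000) :
    (1 / 5 ≤ R ∧ 0.978 ≤ Ep - Em) ∨ 1.0235 ≤ Ep - Em := by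
  have hb0 : 0 ≤ b := h.R0.trans h.Rb
  rcases hb0.lt_or_eq with hb1 | hb1
  swap
  · right
    have h1 := h.bz hb1.symm
    have h2 : R = 0 := le_antisymm (by have := h.Rb; linarith) h.R0
    have := h.P1
    rw [← hb1, h2] at this
    rw [h1]
    linarith
  have hR := h.R_pos (by linarith) hb1
  have hL1 := h.L1
  have hRb := h.Rb
  -- it suffices to bound `R * Ep - b ^ 2 * (1 + u)`
  have key : ∀ t : ℝ, t * R ≤ R * Ep - b ^ 2 * (1 + u) → t ≤ Ep - Em := by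
    intro t ht
    have h1 : t * R ≤ (Ep - Em) * R := by nlinarith
    exact le_of_mul_le_mul_right h1 hR
  have hP1 : R * (5 / 2 * (1 - b) - 2 * R) ≤ R * Ep := mul_le_mul_of_nonneg_left h.P1 hR.le
  have hP2 : R * (3 * (1 - b) - 4 * R) ≤ R * Ep := mul_le_mul_of_nonneg_left h.P2 hR.le
  have hP3 : R * (7 / 2 * (1 - b) - 13 / 2 * R) ≤ R * Ep := mul_le_mul_of_nonneg_left h.P3 hR.le
  have hbb : b ^ 2 ≤ 0.2765 * b := by nlinarith
  have hub : b ^ 2 * u ≤ b ^ 2 * (1 / 10000) := mul_le_mul_of_nonneg_left hu (by positivity)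
  rcases le_or_gt (1 / 5) R with h5 | h5
  · left
    refine ⟨h5, key _ ?_⟩
    nlinarith [mul_nonneg (sub_nonneg.mpr h5) (sub_nonneg.mpr hRb),
      mul_nonneg (sub_nonneg.mpr hRb) (sub_nonneg.mpr hb), mul_nonneg (sub_nonneg.mpr h5) (sub_nonneg.mpr hb)]
  right
  have hbsq : b ^ 2 ≤ 0.2765 ^ 2 := pow_le_pow_left₀ hb0 hb 2
  rcases le_or_gt 0.18 R with h6 | h6
  · refine key _ ?_
    nlinarith [mul_nonneg (sub_nonneg.mpr h6) (sub_nonneg.mpr h5.le), mul_nonneg hR.le (sub_nonneg.mpr hb)]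
  rcases le_or_gt 0.11 R with h7 | h7
  · refine key _ ?_
    nlinarith [mul_nonneg (sub_nonneg.mpr h7) (sub_nonneg.mpr h6.le), mul_nonneg hR.le (sub_nonneg.mpr hb)]
  rcases le_or_gt 0.0755 R with h8 | h8
  · refine key _ ?_
    nlinarith [mul_nonneg (sub_nonneg.mpr h8) (sub_nonneg.mpr h7.le), mul_nonneg hR.le (sub_nonneg.mpr hb)]
  -- small `R`
  have hL3 := h.L3 (5 / 4) (by norm_num)
  have he := exp_54
  have hL3' : b * (5 / 4) - b ^ 2 * 3.491 + b ^ 2 ≤ R * Ep := by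
    have : b ^ 2 * Real.exp (5 / 4) ≤ b ^ 2 * (3491 / 1000) := mul_le_mul_of_nonneg_left he.le (by positivity)
    nlinarith
  rcases le_or_gt 0.2 b with h9 | h9
  · refine key _ ?_
    nlinarith [mul_nonneg (sub_nonneg.mpr h9) (sub_nonneg.mpr hb)]
  rcases le_or_gt (b / 2) R with h10 | h10
  · refine key _ ?_
    nlinarith [mul_nonneg (sub_nonneg.mpr h10) (sub_nonneg.mpr hRb), mul_nonneg hR.le (sub_nonneg.mpr h9.le)]
  · refine key _ ?_
    nlinarith [mul_nonneg hb0 (sub_nonneg.mpr h9.le), mul_nonneg hb0 (sub_nonneg.mpr h10.le)]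

/-- linear form of the bound of the negative part when the pair is bad -/
lemma PD.neg (h : PD b R Em Ep u) (hb : b ≤ 0.2765) (hu0 : 0 ≤ u) (hR : 1 / 5 ≤ R) :
    Em ≤ 2 * b - R + 0.3825 * (b - R) + 0.4 * u := by
  have hRb := h.Rb
  have hL1 := h.L1
  have hR0 : 0 < R := by linarith
  have h1 : R * Em ≤ R * (2 * b - R + 0.3825 * (b - R) + 0.4 * u) := by
    have h2 : b ^ 2 ≤ 0.08 := by nlinarith
    have h3 : b ^ 2 * u ≤ 0.4 * u * R := by nlinarith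
    have h4 : (b - R) ^ 2 ≤ 0.3825 * (b - R) * R := by nlinarith
    nlinarith
  exact le_of_mul_le_mul_left h1 hR0

/-- the value of the extremal case -/
lemma psi_bound {d c : ℝ} (hd : d = (5 - √5) / 10 + c) (hc0 : 0 ≤ c) (hc : c ≤ 1 / 10000) :
    d ^ 2 ≤ (1 - 3 * ((5 - √5) / 10) + 3 * c) * (1 - 2 * d) ∧ 0.2763 ≤ d ∧ d ≤ 0.2765 := by
  have h5 : √5 ^ 2 = 5 := Real.sq_sqrt (by norm_num)
  have h5a : 2.2360 ≤ √5 := by
    apply Real.le_sqrt_of_sq_le; norm_num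
  have h5b : √5 ≤ 2.2361 := by
    apply Real.sqrt_le_iff.mpr; norm_num
  refine ⟨?_, by rw [hd]; linarith, by rw [hd]; linarith⟩
  rw [hd]
  nlinarith

/-- (D) the case `x < z` -/
theorem case_D {b R Em Ep b' R' Em' Ep' u a d c : ℝ} (h : PD b R Em Ep u) (h' : PD b' R' Em' Ep' u)
    (hd : d = (5 - √5) / 10 + c) (hc0 : 0 ≤ c) (hc : c ≤ 1 / 10000) (hu0 : 0 ≤ u)
    (hbd : b ≤ d) (hbd' : b' ≤ d) (hR : 1 / 5 ≤ R) (hR' : 1 / 5 ≤ R')
    (hE : 2 * (1 - b) - R + b' - a ≤ Ep) (hE' : 2 * (1 - b') - R' + b - a ≤ Ep')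
    (ha : a * (1 - b - b') ≤ R * R') (ha0 : 0 ≤ a) :
    2 - 12 * c - u + 3 * (d - b) + 3 * (d - b') + 0.6 * (d - R) + 0.6 * (d - R') ≤
      (Ep - Em) + (Ep' - Em') ∧
    (∀ w : ℝ, 0 ≤ w → (Ep - Em) + (Ep' - Em') ≤ 2 + w → 1 - w - 17 * c - 2 * u ≤ Ep - Em) := by
  obtain ⟨hpsi, hd1, hd2⟩ := psi_bound hd hc0 hc
  have hn := h.neg (by linarith) hu0 hR
  have hn' := h'.neg (by linarith) hu0 hR'
  have hRb := h.Rb
  have hRb' := h'.Rb
  set al : ℝ := 1 - 3 * ((5 - √5) / 10) with hal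
  have hal2 : al = 1 - 3 * d + 3 * c := by rw [hal, hd]; ring
  -- bound of `a`
  have hA : a ≤ al + 3 * c - 0.5 * (d - R) - 0.5 * (d - R') := by
    have h1 : a * (1 - 2 * d) ≤ (al + 3 * c - 0.5 * (d - R) - 0.5 * (d - R')) * (1 - 2 * d) := by
      have h2 : a * (1 - 2 * d) ≤ a * (1 - b - b') := mul_le_mul_of_nonneg_left (by linarith) ha0
      have h3 : R * R' ≤ d ^ 2 - 0.238 * (d - R) - 0.238 * (d - R') := by
        nlinarith [mul_nonneg (sub_nonneg.mpr (hRb.trans hbd)) (sub_nonneg.mpr hR'),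
          mul_nonneg (sub_nonneg.mpr (hRb'.trans hbd')) (sub_nonneg.mpr hR)]
      nlinarith
    exact le_of_mul_le_mul_right h1 (by linarith)
  have hsum : 2 - 12 * c - u + 3 * (d - b) + 3 * (d - b') + 0.6 * (d - R) + 0.6 * (d - R') ≤
      (Ep - Em) + (Ep' - Em') := by
    linarith
  refine ⟨hsum, fun w hw0 hw => ?_⟩
  linarith

/-- (E) the case of an antichain -/
theorem case_E {b R Em Ep b' R' Em' Ep' g R2 Em2 Ep2 u : ℝ} (h : PD b R Em Ep u)
    (h' : PD b' R' Em' Ep' u) (h2 : PD g R2 Em2 Ep2 u) (hu0 : 0 ≤ u) (hu : u ≤ 1 / 10000)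
    (hb : b ≤ 0.2765) (hb' : b' ≤ 0.2765) (hR : 1 / 5 ≤ R) (hR' : 1 / 5 ≤ R')
    (hg : g ≤ (b - R) + (b' - R') + (b - R)) (hg' : g ≤ (b - R) + (b' - R') + (b' - R'))
    (hsum : Ep2 - Em2 = (Ep - Em) + (Ep' - Em')) : 2.0012 ≤ (Ep - Em) + (Ep' - Em') := by
  have hRb := h.Rb
  have hRb' := h'.Rb
  rcases le_or_gt g 0.088 with hgs | hgs
  · rw [← hsum]
    have hg0 : 0 ≤ g := h2.R0.trans h2.Rb
    rcases hg0.lt_or_eq with hg1 | hg1
    swap
    · have h1 := h2.bz hg1.symm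
      have h3 : R2 = 0 := le_antisymm (by have := h2.Rb; linarith) h2.R0
      have := h2.P1
      rw [← hg1, h3] at this
      rw [h1]
      linarith
    have hR2 := h2.R_pos (by linarith) hg1
    have hL1 := h2.L1
    have key : ∀ t : ℝ, t * R2 ≤ R2 * Ep2 - g ^ 2 * (1 + u) → t ≤ Ep2 - Em2 := by
      intro t ht
      have h1 : t * R2 ≤ (Ep2 - Em2) * R2 := by nlinarith
      exact le_of_mul_le_mul_right h1 hR2
    have hug : g ^ 2 * u ≤ g ^ 2 * (1 / 10000) := mul_le_mul_of_nonneg_left hu (by positivity)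
    rcases le_or_gt (g / 2) R2 with h4 | h4
    · refine key _ ?_
      have hP1 : R2 * (5 / 2 * (1 - g) - 2 * R2) ≤ R2 * Ep2 := mul_le_mul_of_nonneg_left h2.P1 hR2.le
      nlinarith [mul_nonneg (sub_nonneg.mpr h4) (sub_nonneg.mpr h2.Rb), mul_nonneg hR2.le (sub_nonneg.mpr hgs)]
    · refine key _ ?_
      have hL3 := h2.L3 2 (by norm_num)
      have he := exp_2
      have hL3' : g * 2 - g ^ 2 * 7.4 + g ^ 2 ≤ R2 * Ep2 := by
        have : g ^ 2 * Real.exp 2 ≤ g ^ 2 * 7.4 := mul_le_mul_of_nonneg_left he.le (by positivity)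
        nlinarith
      nlinarith [mul_nonneg hg0 (sub_nonneg.mpr hgs), mul_nonneg hg0 (sub_nonneg.mpr h4.le)]
  · -- `g` is large, so there are tails
    have hL1 := h.L1
    have hL1' := h'.L1
    have hP := h.P1
    have hP' := h'.P1
    -- general lower bound
    have gen : ∀ {b R Em Ep : ℝ}, PD b R Em Ep u → b ≤ 0.2765 → 1 / 5 ≤ R →
        (0.97925 + 5.5 * (0.2765 - b) + 0.6175 * (b - R) - 0.4 * u ≤ Ep - Em) ∧
        (b - R ≤ 0.03 → 0.97925 + 5.5 * (0.2765 - b) + 0.85 * (b - R) - 0.4 * u ≤ Ep - Em) ∧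
        (0.03 ≤ b - R → 0.97925 + 0.026 - 0.4 * u ≤ Ep - Em) := by
      intro b R Em Ep h hb hR
      have hRb := h.Rb
      have hL1 := h.L1
      have hR0 : 0 < R := by linarith
      have hP1 : R * (5 / 2 * (1 - b) - 2 * R) ≤ R * Ep := mul_le_mul_of_nonneg_left h.P1 hR0.le
      have hbsq : b ^ 2 ≤ 0.08 := by nlinarith
      have h3 : b ^ 2 * u ≤ 0.4 * u * R := by nlinarith
      have key : ∀ t : ℝ, t * R ≤ R * Ep - b ^ 2 * (1 + u) → t ≤ Ep - Em := by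
        intro t ht
        have h1 : t * R ≤ (Ep - Em) * R := by nlinarith
        exact le_of_mul_le_mul_right h1 hR0
      refine ⟨key _ ?_, fun h5 => key _ ?_, fun h5 => key _ ?_⟩
      · nlinarith [mul_nonneg (sub_nonneg.mpr hRb) (sub_nonneg.mpr hR), mul_nonneg (sub_nonneg.mpr hRb) (sub_nonneg.mpr hb)]
      · nlinarith [mul_nonneg (sub_nonneg.mpr hRb) (sub_nonneg.mpr hR), mul_nonneg (sub_nonneg.mpr hRb) (sub_nonneg.mpr h5)]
      · nlinarith [mul_nonneg (sub_nonneg.mpr h5) (sub_nonneg.mpr hR), mul_nonneg (sub_nonneg.mpr h5) (sub_nonneg.mpr hb), mul_nonneg (sub_nonneg.mpr hR) (sub_nonneg.mpr hb)]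
    obtain ⟨a1, a2, a3⟩ := gen h hb hR
    obtain ⟨b1, b2, b3⟩ := gen h' hb' hR'
    rcases le_or_gt (b - R) 0.03 with h5 | h5 <;> rcases le_or_gt (b' - R') 0.03 with h6 | h6
    · have := a2 h5; have := b2 h6; linarith
    · have := a2 h5; linarith
    · have := b2 h6; linarith
    · have := a3 h5.le; have := b3 h6.le; linarith

end Pool.Agent.Y491.BF
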