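import Pool.Agent.Y491.BF.Stm
import Pool.Agent.Y491.BF.Real
import Pool.Agent.TH161.KS.Main

/-!
# Project BF: probabilities in linear extensions, the inequalities for a pair
-/

set_option autoImplicit false
set_option linter.unusedSectionVars false

open Finset
open scoped Classical

namespace Pool.Agent.Y491.BF

open Pool.Agent.TH161.LW

section basic

variable {α : Type} [Fintype α] [PartialOrder α]

lemma mem_LE {σ : α ≃ Fin (Fintype.card α)} : σ ∈ LE α ↔ StrictMono ⇑σ := by
  simp [LE]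

lemma LE_card : (LE α).card = eN α := by
  rw [eN_eq]; rfl

lemma LE_pos : 0 < (LE α).card := by
  rw [LE_card]; exact Pool.Agent.TH161.KS.eN_pos α

lemma nn_true : nn (α := α) (fun _ => True) = (LE α).card := by
  simp [nn]

lemma nn_mono {p q : (α ≃ Fin (Fintype.card α)) → Prop} (h : ∀ σ ∈ LE α, p σ → q σ) : nn p ≤ nn q := by
  unfold nn
  refine Finset.card_le_card fun σ hσ => ?_
  rw [Finset.mem_filter] at hσ ⊢
  exact ⟨hσ.1, h σ hσ.1 hσ.2⟩

lemma nn_congr {p q : (α ≃ Fin (Fintype.card α)) → Prop} (h : ∀ σ ∈ LE α, (p σ ↔ q σ)) : nn p = nn q :=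
  le_antisymm (nn_mono fun σ hσ => (h σ hσ).1) (nn_mono fun σ hσ => (h σ hσ).2)

lemma nn_or' {p q r : (α ≃ Fin (Fintype.card α)) → Prop} (h : ∀ σ ∈ LE α, r σ → p σ ∨ q σ) :
    nn r ≤ nn p + nn q := by
  unfold nn
  refine le_trans (Finset.card_le_card fun σ hσ => ?_) (Finset.card_union_le _ _)
  rw [Finset.mem_filter] at hσ
  rw [Finset.mem_union, Finset.mem_filter, Finset.mem_filter]
  rcases h σ hσ.1 hσ.2 with h | h
  · exact Or.inl ⟨hσ.1, h⟩
  · exact Or.inr ⟨hσ.1, h⟩

lemma nn_or (p q : (α ≃ Fin (Fintype.card α)) → Prop) : nn (fun σ => p σ ∨ q σ) ≤ nn p + nn q :=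
  nn_or' fun _ _ h => h

lemma nn_pos {p : (α ≃ Fin (Fintype.card α)) → Prop} {σ : α ≃ Fin (Fintype.card α)} (hσ : σ ∈ LE α)
    (h : p σ) : 0 < nn p := by
  unfold nn
  exact Finset.card_pos.mpr ⟨σ, Finset.mem_filter.mpr ⟨hσ, h⟩⟩

lemma nn_eq_sum (p : (α ≃ Fin (Fintype.card α)) → Prop) :
    (nn p : ℝ) = ∑ σ ∈ LE α, if p σ then (1 : ℝ) else 0 := by
  unfold nn
  rw [Finset.card_filter]
  push_cast
  rfl

lemma gap_swap (x y : α) (σ : α ≃ Fin (Fintype.card α)) : gap y x σ = - gap x y σ := by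
  unfold gap; ring

lemma gap_add (x y z : α) (σ : α ≃ Fin (Fintype.card α)) : gap x y σ + gap y z σ = gap x z σ := by
  unfold gap; ring

lemma gap_ne {x y : α} (h : x ≠ y) (σ : α ≃ Fin (Fintype.card α)) : gap x y σ ≠ 0 := by
  intro h0
  apply h
  apply σ.injective
  apply Fin.ext
  unfold gap at h0
  omega

lemma gap_pos {x y : α} (h : x < y) {σ : α ≃ Fin (Fintype.card α)} (hσ : σ ∈ LE α) : 0 < gap x y σ := by
  have := (mem_LE.mp hσ) h
  unfold gap
  have h2 : (σ x : ℕ) < (σ y : ℕ) := this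
  omega

/-- probability -/
noncomputable def pp (p : (α ≃ Fin (Fintype.card α)) → Prop) : ℝ := (nn p : ℝ) / (LE α).card

/-- average position -/
noncomputable def HH (x : α) : ℝ := (∑ σ ∈ LE α, ((σ x : ℕ) : ℝ)) / (LE α).card

lemma Npos : (0 : ℝ) < ((LE α).card : ℝ) := by exact_mod_cast LE_pos

lemma pp_nonneg (p : (α ≃ Fin (Fintype.card α)) → Prop) : 0 ≤ pp p := by unfold pp; positivity

lemma pp_mono {p q : (α ≃ Fin (Fintype.card α)) → Prop} (h : ∀ σ ∈ LE α, p σ → q σ) : pp p ≤ pp q := by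
  unfold pp
  exact div_le_div_of_nonneg_right (by exact_mod_cast nn_mono h) Npos.le

lemma pp_le_one (p : (α ≃ Fin (Fintype.card α)) → Prop) : pp p ≤ 1 := by
  unfold pp
  rw [div_le_one Npos]
  have := nn_mono (α := α) (p := p) (q := fun _ => True) (fun _ _ _ => trivial)
  rw [nn_true] at this
  exact_mod_cast this

lemma pp_or (p q : (α ≃ Fin (Fintype.card α)) → Prop) : pp (fun σ => p σ ∨ q σ) ≤ pp p + pp q := by
  unfold pp
  rw [← add_div]
  exact div_le_div_of_nonneg_right (by exact_mod_cast nn_or p q) Npos.le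

lemma pp_all {p : (α ≃ Fin (Fintype.card α)) → Prop} (h : ∀ σ ∈ LE α, p σ) : pp p = 1 := by
  unfold pp
  have h1 : nn p = (LE α).card := by
    rw [← nn_true]; exact nn_congr fun σ hσ => ⟨fun _ => trivial, fun _ => h σ hσ⟩
  rw [h1, div_self Npos.ne']

/-- mean value of a function on the linear extensions -/
noncomputable def mean (X : (α ≃ Fin (Fintype.card α)) → ℝ) : ℝ := (∑ σ ∈ LE α, X σ) / (LE α).card

lemma mean_mono {X Y : (α ≃ Fin (Fintype.card α)) → ℝ} (h : ∀ σ ∈ LE α, X σ ≤ Y σ) :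
    mean X ≤ mean Y := by
  unfold mean
  exact div_le_div_of_nonneg_right (Finset.sum_le_sum h) Npos.le

lemma mean_congr {X Y : (α ≃ Fin (Fintype.card α)) → ℝ} (h : ∀ σ ∈ LE α, X σ = Y σ) :
    mean X = mean Y := by
  unfold mean
  rw [Finset.sum_congr rfl h]

lemma mean_add (X Y : (α ≃ Fin (Fintype.card α)) → ℝ) : mean (fun σ => X σ + Y σ) = mean X + mean Y := by
  unfold mean
  rw [Finset.sum_add_distrib, add_div]

lemma mean_sub (X Y : (α ≃ Fin (Fintype.card α)) → ℝ) : mean (fun σ => X σ - Y σ) = mean X - mean Y := by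
  unfold mean
  rw [Finset.sum_sub_distrib, sub_div]

lemma mean_mul (c : ℝ) (X : (α ≃ Fin (Fintype.card α)) → ℝ) : mean (fun σ => c * X σ) = c * mean X := by
  unfold mean
  rw [← Finset.mul_sum, mul_div_assoc]

lemma mean_const (c : ℝ) : mean (fun _ : α ≃ Fin (Fintype.card α) => c) = c := by
  unfold mean
  rw [Finset.sum_const, nsmul_eq_mul, mul_div_cancel_left₀ _ Npos.ne']

lemma mean_ind (p : (α ≃ Fin (Fintype.card α)) → Prop) : mean (fun σ => if p σ then (1 : ℝ) else 0) = pp p := by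
  unfold mean pp
  rw [nn_eq_sum]

/-- positive part of the mean gap -/
noncomputable def Ep (x y : α) : ℝ := mean fun σ => max ((gap x y σ : ℤ) : ℝ) 0

lemma Ep_eq (x y : α) : Ep x y = Tp x y / (LE α).card := rfl

lemma HH_sub (x y : α) : HH y - HH x = Ep x y - Ep y x := by
  have h1 : HH y - HH x = mean fun σ => ((gap x y σ : ℤ) : ℝ) := by
    unfold HH mean gap
    rw [← sub_div, ← Finset.sum_sub_distrib]
    push_cast
    rfl
  rw [h1]
  unfold Ep
  rw [← mean_sub]
  congr 1
  funext σ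
  rw [gap_swap x y]
  push_cast
  rcases le_total (((gap x y σ : ℤ) : ℝ)) 0 with h | h
  · rw [max_eq_right h, max_eq_left (by linarith)]; ring
  · rw [max_eq_left h, max_eq_right (by linarith)]; ring

lemma pp_gap {x y : α} (h : x ≠ y) : pp (fun σ => 0 < gap x y σ) = 1 - pp (fun σ => gap x y σ < 0) := by
  have h1 : pp (fun σ => 0 < gap x y σ) + pp (fun σ => gap x y σ < 0) = 1 := by
    rw [← mean_ind, ← mean_ind, ← mean_add]
    refine (mean_congr (Y := fun _ => 1) fun σ _ => ?_).trans (mean_const (α := α) 1)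
    rcases lt_or_gt_of_ne (gap_ne h σ) with h2 | h2
    · rw [if_neg (not_lt.mpr h2.le), if_pos h2]; norm_num
    · rw [if_pos h2, if_neg (not_lt.mpr h2.le)]; norm_num
  linarith

end basic

section pair

variable {α : Type} [Fintype α] [PartialOrder α]

/-- pointwise bound for the positive part -/
lemma Ep_ge_four (x y : α) : 4 * pp (fun σ => 0 < gap x y σ) - 3 * pp (fun σ => gap x y σ = 1) -
    2 * pp (fun σ => gap x y σ = 2) - pp (fun σ => gap x y σ = 3) ≤ Ep x y := by
  rw [← mean_ind, ← mean_ind, ← mean_ind, ← mean_ind, ← mean_mul, ← mean_mul, ← mean_mul, ← mean_sub,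
    ← mean_sub, ← mean_sub]
  refine mean_mono fun σ _ => ?_
  by_cases h0 : 0 < gap x y σ
  · by_cases h1 : gap x y σ = 1
    · simp [h1]; norm_num
    by_cases h2 : gap x y σ = 2
    · simp [h2]; norm_num
    by_cases h3 : gap x y σ = 3
    · simp [h3]; norm_num
    simp only [h0, h1, h2, h3, if_true, if_false]
    have : (4 : ℤ) ≤ gap x y σ := by omega
    have h4 : (4 : ℝ) ≤ ((gap x y σ : ℤ) : ℝ) := by exact_mod_cast this
    have := le_max_left ((gap x y σ : ℤ) : ℝ) 0
    linarith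
  · have h1 : gap x y σ ≠ 1 := by omega
    have h2 : gap x y σ ≠ 2 := by omega
    have h3 : gap x y σ ≠ 3 := by omega
    simp [h0, h1, h2, h3]

lemma Ep_ge_three (x y : α) : 3 * pp (fun σ => 0 < gap x y σ) - 2 * pp (fun σ => gap x y σ = 1) -
    pp (fun σ => gap x y σ = 2) ≤ Ep x y := by
  rw [← mean_ind, ← mean_ind, ← mean_ind, ← mean_mul, ← mean_mul, ← mean_sub, ← mean_sub]
  refine mean_mono fun σ _ => ?_
  by_cases h0 : 0 < gap x y σ
  · by_cases h1 : gap x y σ = 1
    · simp [h1]; norm_num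
    by_cases h2 : gap x y σ = 2
    · simp [h2]; norm_num
    simp only [h0, h1, h2, if_true, if_false]
    have : (3 : ℤ) ≤ gap x y σ := by omega
    have h4 : (3 : ℝ) ≤ ((gap x y σ : ℤ) : ℝ) := by exact_mod_cast this
    have := le_max_left ((gap x y σ : ℤ) : ℝ) 0
    linarith
  · have h1 : gap x y σ ≠ 1 := by omega
    have h2 : gap x y σ ≠ 2 := by omega
    simp [h0, h1, h2]

lemma Ep_ge_two (x y : α) : 2 * pp (fun σ => 0 < gap x y σ) - pp (fun σ => gap x y σ = 1) +
    pp (fun σ => 3 ≤ gap x y σ) ≤ Ep x y := by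
  rw [← mean_ind, ← mean_ind, ← mean_ind, ← mean_mul, ← mean_sub, ← mean_add]
  refine mean_mono fun σ _ => ?_
  by_cases h0 : 0 < gap x y σ
  · by_cases h1 : gap x y σ = 1
    · simp [h1]; norm_num
    by_cases h3 : 3 ≤ gap x y σ
    · simp only [h0, h1, h3, if_true, if_false]
      have h4 : (3 : ℝ) ≤ ((gap x y σ : ℤ) : ℝ) := by exact_mod_cast h3
      have := le_max_left ((gap x y σ : ℤ) : ℝ) 0
      linarith
    · simp only [h0, h1, h3, if_true, if_false]
      have : (2 : ℤ) ≤ gap x y σ := by omega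
      have h4 : (2 : ℝ) ≤ ((gap x y σ : ℤ) : ℝ) := by exact_mod_cast this
      have := le_max_left ((gap x y σ : ℤ) : ℝ) 0
      linarith
  · have h1 : gap x y σ ≠ 1 := by omega
    have h3 : ¬ 3 ≤ gap x y σ := by omega
    simp [h0, h1, h3]

lemma pp_split3 (x y : α) : pp (fun σ => gap x y σ = 1) + pp (fun σ => gap x y σ = 2) +
    pp (fun σ => gap x y σ = 3) + pp (fun σ => gap x y σ = 4) ≤ pp (fun σ => 0 < gap x y σ) := by
  rw [← mean_ind, ← mean_ind, ← mean_ind, ← mean_ind, ← mean_ind, ← mean_add, ← mean_add, ← mean_add]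
  refine mean_mono fun σ _ => ?_
  by_cases h0 : 0 < gap x y σ
  · by_cases h1 : gap x y σ = 1
    · simp [h1]
    by_cases h2 : gap x y σ = 2
    · simp [h2]
    by_cases h3 : gap x y σ = 3
    · simp [h3]
    by_cases h4 : gap x y σ = 4
    · simp [h4]
    simp [h0, h1, h2, h3, h4]
  · have h1 : gap x y σ ≠ 1 := by omega
    have h2 : gap x y σ ≠ 2 := by omega
    have h3 : gap x y σ ≠ 3 := by omega
    have h4 : gap x y σ ≠ 4 := by omega
    simp [h0, h1, h2, h3, h4]

lemma adj_symm (hSW : S_SWAP) {x y : α} (h1 : ¬ x ≤ y) (h2 : ¬ y ≤ x) :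
    nn (fun σ => gap x y σ = 1) = nn (fun σ => gap x y σ = -1) := by
  have h := hSW α x y h1 h2 fun _ => True
  rw [nn_congr (p := fun σ => gap x y σ = 1) (q := fun σ => gap x y σ = 1 ∧ True) (fun σ _ => by simp),
    nn_congr (p := fun σ => gap x y σ = -1) (q := fun σ => gap x y σ = -1 ∧ True) (fun σ _ => by simp)]
  exact h

/-- the inequalities for an incomparable pair -/
theorem pd (hSW : S_SWAP) (hSH : S_SH) (hL1 : S_L1) (hL3 : S_L3) {x y : α} (h1 : ¬ x ≤ y)
    (h2 : ¬ y ≤ x) : PD (pp fun σ => gap x y σ < 0) (pp fun σ => gap x y σ = 1) (Ep y x) (Ep x y)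
      (1 / (Fintype.card α : ℝ)) := by
  have hne : x ≠ y := fun h => h1 (h ▸ le_rfl)
  have hN := Npos (α := α)
  have hn : (0 : ℝ) < (Fintype.card α : ℝ) := by
    have : 0 < Fintype.card α := Fintype.card_pos_iff.mpr ⟨x⟩
    exact_mod_cast this
  obtain ⟨s1, s2, s3⟩ := hSH α x y h1 h2
  have s1' : pp (fun σ => gap x y σ = 2) ≤ 2 * pp (fun σ => gap x y σ = 1) := by
    unfold pp
    rw [← mul_div_assoc]
    exact div_le_div_of_nonneg_right (by exact_mod_cast s1) hN.le
  have s2' : pp (fun σ => gap x y σ = 2) ≤ pp (fun σ => gap x y σ = 1) + pp (fun σ => gap x y σ = 3) := by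
    unfold pp
    rw [← add_div]
    exact div_le_div_of_nonneg_right (by exact_mod_cast s2) hN.le
  have s3' : pp (fun σ => gap x y σ = 3) ≤ pp (fun σ => gap x y σ = 2) + pp (fun σ => gap x y σ = 4) := by
    unfold pp
    rw [← add_div]
    exact div_le_div_of_nonneg_right (by exact_mod_cast s3) hN.le
  have sp := pp_split3 x y
  have hg := pp_gap hne
  have e4 := Ep_ge_four x y
  have e3 := Ep_ge_three x y
  have p4 := pp_nonneg fun σ : α ≃ Fin (Fintype.card α) => gap x y σ = 4
  have p3 := pp_nonneg fun σ : α ≃ Fin (Fintype.card α) => gap x y σ = 3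
  constructor
  · exact pp_nonneg _
  · have : pp (fun σ : α ≃ Fin (Fintype.card α) => gap x y σ = 1) = pp (fun σ => gap x y σ = -1) := by
      unfold pp
      rw [adj_symm hSW h1 h2]
    rw [this]
    exact pp_mono fun σ _ h => by omega
  · unfold Ep
    have := mean_mono (α := α) (X := fun _ => 0) (Y := fun σ => max ((gap y x σ : ℤ) : ℝ) 0)
      (fun σ _ => le_max_right _ _)
    rwa [mean_const] at this
  · intro h0
    have hz : nn (fun σ : α ≃ Fin (Fintype.card α) => gap x y σ < 0) = 0 := by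
      unfold pp at h0
      rcases div_eq_zero_iff.mp h0 with h | h
      · exact_mod_cast h
      · exact absurd h hN.ne'
    have hall : ∀ σ ∈ LE α, ¬ gap x y σ < 0 := by
      intro σ hσ hlt
      have : 0 < nn (fun σ : α ≃ Fin (Fintype.card α) => gap x y σ < 0) := nn_pos hσ hlt
      omega
    have : Ep y x = mean (fun _ : α ≃ Fin (Fintype.card α) => (0 : ℝ)) := by
      unfold Ep mean
      congr 1
      refine Finset.sum_congr rfl fun σ hσ => ?_
      have h3 := hall σ hσ
      have h4 : gap y x σ ≤ 0 := by rw [gap_swap x y]; omega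
      exact max_eq_right (by exact_mod_cast h4)
    rw [this, mean_const]
  · have h := hL1 α x y h1 h2
    unfold pp
    rw [Ep_eq]
    rw [div_mul_div_comm, div_pow, div_mul_eq_mul_div, ← sq, div_le_div_iff_of_pos_right (by positivity)]
    have : (nn (fun σ : α ≃ Fin (Fintype.card α) => gap x y σ = 1) : ℝ) * Tp y x =
        (nn (fun σ : α ≃ Fin (Fintype.card α) => gap x y σ = 1) : ℝ) * Tp y x * Fintype.card α / Fintype.card α := by
      field_simp
    rw [this, div_le_iff₀ hn]
    calc _ ≤ _ := h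
      _ = _ := by field_simp
  · linarith
  · linarith
  · linarith
  · intro v hv
    have h := hL3 α x y h1 h2 v hv
    rw [← hg]
    unfold pp
    rw [Ep_eq]
    rw [div_mul_div_comm]
    have : (nn (fun σ : α ≃ Fin (Fintype.card α) => gap x y σ < 0) : ℝ) / (LE α).card *
        (v * ((nn (fun σ : α ≃ Fin (Fintype.card α) => 0 < gap x y σ) : ℝ) / (LE α).card) -
        (nn (fun σ : α ≃ Fin (Fintype.card α) => gap x y σ < 0) : ℝ) / (LE α).card * (Real.exp v - 1 - v)) =
        ((nn (fun σ : α ≃ Fin (Fintype.card α) => gap x y σ < 0) : ℝ) *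
        (v * (nn (fun σ : α ≃ Fin (Fintype.card α) => 0 < gap x y σ) : ℝ) -
        (nn (fun σ : α ≃ Fin (Fintype.card α) => gap x y σ < 0) : ℝ) * (Real.exp v - 1 - v))) /
        (((LE α).card : ℝ) * (LE α).card) := by
      field_simp
    rw [this]
    exact div_le_div_of_nonneg_right h (by positivity)

end pair

end Pool.Agent.Y491.BF
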