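import Pool.Agent.Y491.BF.Pair

/-!
# Project BF: three consecutive elements
-/

set_option autoImplicit false
set_option linter.unusedSectionVars false

open Finset
open scoped Classical

namespace Pool.Agent.Y491.BF

open Pool.Agent.TH161.LW

variable {α : Type} [Fintype α] [PartialOrder α]

lemma HH_sub_mean (x y : α) : HH y - HH x = mean fun σ => ((gap x y σ : ℤ) : ℝ) := by
  unfold HH mean gap
  rw [← sub_div, ← Finset.sum_sub_distrib]
  push_cast
  rfl

lemma nn_div_le {a b : ℕ} (h : a ≤ b) : (a : ℝ) / ((LE α).card : ℝ) ≤ (b : ℝ) / ((LE α).card : ℝ) :=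
  div_le_div_of_nonneg_right (by exact_mod_cast h) Npos.le

lemma rev_one {x y : α} (h : y < x) : pp (fun σ => gap x y σ < 0) = 1 :=
  pp_all fun σ hσ => by
    have := gap_pos h hσ
    rw [gap_swap x y] at this
    omega

lemma one_add_pp_le {p : (α ≃ Fin (Fintype.card α)) → Prop} {X : (α ≃ Fin (Fintype.card α)) → ℝ}
    (h : ∀ σ ∈ LE α, (p σ → 2 ≤ X σ) ∧ 1 ≤ X σ) : 1 + pp p ≤ mean X := by
  have h0 : 1 + pp p = mean (fun σ => (1 : ℝ) + if p σ then (1 : ℝ) else 0) := by
    rw [mean_add, mean_const, mean_ind]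
  rw [h0]
  refine mean_mono fun σ hσ => ?_
  by_cases h4 : p σ
  · rw [if_pos h4]
    have := (h σ hσ).1 h4
    linarith
  · rw [if_neg h4]
    have := (h σ hσ).2
    linarith

lemma cmpB {x y z : α} (h : x < y) (hxz : x ≠ z) :
    1 + pp (fun σ => gap y z σ = -1) ≤ HH y - HH x := by
  rw [HH_sub_mean]
  refine one_add_pp_le fun σ hσ => ?_
  have h1 := gap_pos h hσ
  have h2 := gap_ne hxz σ
  have h3 := gap_add x y z σ
  refine ⟨fun h4 => ?_, ?_⟩
  · have : (2 : ℤ) ≤ gap x y σ := by omega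
    exact_mod_cast this
  · have : (1 : ℤ) ≤ gap x y σ := by omega
    exact_mod_cast this

lemma cmpC {x y z : α} (h : y < z) (hxz : x ≠ z) :
    1 + pp (fun σ => gap x y σ = -1) ≤ HH z - HH y := by
  rw [HH_sub_mean]
  refine one_add_pp_le fun σ hσ => ?_
  have h1 := gap_pos h hσ
  have h2 := gap_ne hxz σ
  have h3 := gap_add x y z σ
  refine ⟨fun h4 => ?_, ?_⟩
  · have : (2 : ℤ) ≤ gap y z σ := by omega
    exact_mod_cast this
  · have : (1 : ℤ) ≤ gap y z σ := by omega
    exact_mod_cast this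

lemma cmp_ge {x y : α} (h : x < y) : 1 ≤ HH y - HH x := by
  rw [HH_sub_mean, ← mean_const (α := α) 1]
  refine mean_mono fun σ hσ => ?_
  have h1 := gap_pos h hσ
  have : (1 : ℤ) ≤ gap x y σ := by omega
  exact_mod_cast this

lemma gap_trans_swap_right (x y z : α) (hxy : x ≠ y) (hxz : x ≠ z) (σ : α ≃ Fin (Fintype.card α)) :
    gap x y ((Equiv.swap y z).trans σ) = gap x z σ := by
  unfold gap
  simp only [Equiv.trans_apply, Equiv.swap_apply_left, Equiv.swap_apply_of_ne_of_ne hxy hxz]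

lemma gap_trans_swap_left (x y z : α) (hzx : z ≠ x) (hzy : z ≠ y) (σ : α ≃ Fin (Fintype.card α)) :
    gap y z ((Equiv.swap x y).trans σ) = gap x z σ := by
  unfold gap
  simp only [Equiv.trans_apply, Equiv.swap_apply_right, Equiv.swap_apply_of_ne_of_ne hzx hzy]

/-- all facts needed in the case `x < z` -/
lemma facts_D (hSW : S_SWAP) (hNC : S_NC) {x y z : α} (h1 : ¬ x ≤ y) (h2 : ¬ y ≤ x) (h3 : ¬ y ≤ z)
    (h4 : ¬ z ≤ y) (h5 : x < z) :
    ∃ a : ℝ, 0 ≤ a ∧
    2 * (1 - pp (fun σ => gap x y σ < 0)) - pp (fun σ => gap x y σ = 1) +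
      pp (fun σ => gap y z σ < 0) - a ≤ Ep x y ∧
    2 * (1 - pp (fun σ => gap y z σ < 0)) - pp (fun σ => gap y z σ = 1) +
      pp (fun σ => gap x y σ < 0) - a ≤ Ep y z ∧
    a * (1 - pp (fun σ => gap x y σ < 0) - pp (fun σ => gap y z σ < 0)) ≤
      pp (fun σ => gap x y σ = 1) * pp (fun σ => gap y z σ = 1) := by
  have hxy : x ≠ y := fun h => h1 (h ▸ le_rfl)
  have hyz : y ≠ z := fun h => h3 (h ▸ le_rfl)
  have hxz : x ≠ z := h5.ne
  refine ⟨pp (fun σ => gap x y σ = 1 ∧ gap y z σ = 1), pp_nonneg _, ?_, ?_, ?_⟩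
  · have e2 := Ep_ge_two x y
    rw [pp_gap hxy] at e2
    -- `y z` reversed
    have s := hSW α y z h3 h4 fun σ => gap x y σ = 1
    have k : pp (fun σ : α ≃ Fin (Fintype.card α) => gap y z σ < 0) ≤
        pp (fun σ => gap x y σ = 1 ∧ gap y z σ = 1) + pp (fun σ => 3 ≤ gap x y σ) := by
      have k1 : nn (fun σ : α ≃ Fin (Fintype.card α) => gap y z σ < 0) ≤
          nn (fun σ : α ≃ Fin (Fintype.card α) => gap y z σ = -1 ∧
            gap x y ((Equiv.swap y z).trans σ) = 1) + nn (fun σ => 3 ≤ gap x y σ) := by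
        refine nn_or' fun σ hσ h => ?_
        rw [gap_trans_swap_right x y z hxy hxz]
        have g1 := gap_pos h5 hσ
        have g2 := gap_add x y z σ
        by_cases h6 : 3 ≤ gap x y σ
        · exact Or.inr h6
        · left
          constructor <;> omega
      rw [← s] at k1
      have k2 : nn (fun σ : α ≃ Fin (Fintype.card α) => gap y z σ = 1 ∧ gap x y σ = 1) =
          nn (fun σ => gap x y σ = 1 ∧ gap y z σ = 1) := nn_congr fun σ _ => and_comm
      rw [k2] at k1
      unfold pp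
      rw [← add_div, ← Nat.cast_add]
      exact nn_div_le k1
    linarith
  · have e2 := Ep_ge_two y z
    rw [pp_gap hyz] at e2
    have s := hSW α x y h1 h2 fun σ => gap y z σ = 1
    have k : pp (fun σ : α ≃ Fin (Fintype.card α) => gap x y σ < 0) ≤
        pp (fun σ => gap x y σ = 1 ∧ gap y z σ = 1) + pp (fun σ => 3 ≤ gap y z σ) := by
      have k1 : nn (fun σ : α ≃ Fin (Fintype.card α) => gap x y σ < 0) ≤
          nn (fun σ : α ≃ Fin (Fintype.card α) => gap x y σ = -1 ∧
            gap y z ((Equiv.swap x y).trans σ) = 1) + nn (fun σ => 3 ≤ gap y z σ) := by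
        refine nn_or' fun σ hσ h => ?_
        rw [gap_trans_swap_left x y z hxz.symm hyz.symm]
        have g1 := gap_pos h5 hσ
        have g2 := gap_add x y z σ
        by_cases h6 : 3 ≤ gap y z σ
        · exact Or.inr h6
        · left
          constructor <;> omega
      rw [← s] at k1
      unfold pp
      rw [← add_div, ← Nat.cast_add]
      exact nn_div_le k1
    linarith
  · have n := hNC α x y z hxy hyz hxz
    have n' : pp (fun σ : α ≃ Fin (Fintype.card α) => gap x y σ = 1 ∧ gap y z σ = 1) *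
        pp (fun σ => 0 < gap x y σ ∧ 0 < gap y z σ) ≤
        pp (fun σ => gap x y σ = 1 ∧ 0 < gap y z σ) * pp (fun σ => 0 < gap x y σ ∧ gap y z σ = 1) := by
      unfold pp
      rw [div_mul_div_comm, div_mul_div_comm]
      exact div_le_div_of_nonneg_right (by exact_mod_cast n) (by positivity)
    have u1 : 1 ≤ pp (fun σ : α ≃ Fin (Fintype.card α) => 0 < gap x y σ ∧ 0 < gap y z σ) +
        (pp (fun σ => gap x y σ < 0) + pp (fun σ => gap y z σ < 0)) := by
      have := pp_or (α := α) (fun σ => 0 < gap x y σ ∧ 0 < gap y z σ)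
        (fun σ => gap x y σ < 0 ∨ gap y z σ < 0)
      have h7 := pp_or (α := α) (fun σ => gap x y σ < 0) (fun σ => gap y z σ < 0)
      have h8 : pp (fun σ : α ≃ Fin (Fintype.card α) => (0 < gap x y σ ∧ 0 < gap y z σ) ∨
          (gap x y σ < 0 ∨ gap y z σ < 0)) = 1 := pp_all fun σ _ => by
        have g1 := gap_ne hxy σ
        have g2 := gap_ne hyz σ
        omega
      linarith
    have u2 : pp (fun σ : α ≃ Fin (Fintype.card α) => gap x y σ = 1 ∧ 0 < gap y z σ) ≤
        pp (fun σ => gap x y σ = 1) := pp_mono fun σ _ h => h.1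
    have u3 : pp (fun σ : α ≃ Fin (Fintype.card α) => 0 < gap x y σ ∧ gap y z σ = 1) ≤
        pp (fun σ => gap y z σ = 1) := pp_mono fun σ _ h => h.2
    have p1 := pp_nonneg fun σ : α ≃ Fin (Fintype.card α) => gap x y σ = 1 ∧ gap y z σ = 1
    have p2 := pp_nonneg fun σ : α ≃ Fin (Fintype.card α) => 0 < gap x y σ ∧ gap y z σ = 1
    have p3 := pp_nonneg fun σ : α ≃ Fin (Fintype.card α) => gap x y σ = 1
    calc _ ≤ pp (fun σ : α ≃ Fin (Fintype.card α) => gap x y σ = 1 ∧ gap y z σ = 1) *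
          pp (fun σ => 0 < gap x y σ ∧ 0 < gap y z σ) := mul_le_mul_of_nonneg_left (by linarith) p1
      _ ≤ _ := n'
      _ ≤ _ := mul_le_mul u2 u3 p2 p3

/-- the tails of the two pairs of an antichain -/
lemma facts_E (hSW : S_SWAP) {x y z : α} (h1 : ¬ x ≤ y) (h2 : ¬ y ≤ x) (h3 : ¬ y ≤ z)
    (h4 : ¬ z ≤ y) (h5 : ¬ x ≤ z) (h6 : ¬ z ≤ x) :
    pp (fun σ => gap x z σ < 0) ≤
      (pp (fun σ => gap x y σ < 0) - pp (fun σ => gap x y σ = 1)) +
      (pp (fun σ => gap y z σ < 0) - pp (fun σ => gap y z σ = 1)) +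
      (pp (fun σ => gap x y σ < 0) - pp (fun σ => gap x y σ = 1)) ∧
    pp (fun σ => gap x z σ < 0) ≤
      (pp (fun σ => gap x y σ < 0) - pp (fun σ => gap x y σ = 1)) +
      (pp (fun σ => gap y z σ < 0) - pp (fun σ => gap y z σ = 1)) +
      (pp (fun σ => gap y z σ < 0) - pp (fun σ => gap y z σ = 1)) := by
  have hxy : x ≠ y := fun h => h1 (h ▸ le_rfl)
  have hyz : y ≠ z := fun h => h3 (h ▸ le_rfl)
  have hxz : x ≠ z := fun h => h5 (h ▸ le_rfl)
  have t : ∀ {x y : α}, ¬ x ≤ y → ¬ y ≤ x → pp (fun σ => gap x y σ ≤ -2) =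
      pp (fun σ => gap x y σ < 0) - pp (fun σ => gap x y σ = 1) := by
    intro x y h1 h2
    have e1 : pp (fun σ : α ≃ Fin (Fintype.card α) => gap x y σ = 1) = pp (fun σ => gap x y σ = -1) := by
      unfold pp
      rw [adj_symm hSW h1 h2]
    rw [e1, ← mean_ind, ← mean_ind, ← mean_ind, ← mean_sub]
    refine mean_congr fun σ _ => ?_
    by_cases h7 : gap x y σ ≤ -2
    · rw [if_pos h7, if_pos (by omega), if_neg (by omega)]; norm_num
    · rw [if_neg h7]
      by_cases h8 : gap x y σ = -1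
      · rw [if_pos (by omega), if_pos h8]; norm_num
      · rw [if_neg (by omega), if_neg h8]; norm_num
  rw [← t h1 h2, ← t h3 h4]
  have c1 : pp (fun σ : α ≃ Fin (Fintype.card α) => gap x z σ < 0) ≤
      (pp (fun σ => gap x y σ ≤ -2) + pp (fun σ => gap y z σ ≤ -2)) +
      pp (fun σ => gap z y σ = 1 ∧ gap y x σ = 1) := by
    have e1 := pp_or (α := α) (fun σ => gap x y σ ≤ -2 ∨ gap y z σ ≤ -2)
      (fun σ => gap z y σ = 1 ∧ gap y x σ = 1)
    have e2 := pp_or (α := α) (fun σ => gap x y σ ≤ -2) (fun σ => gap y z σ ≤ -2)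
    have e3 : pp (fun σ : α ≃ Fin (Fintype.card α) => gap x z σ < 0) ≤
        pp (fun σ => (gap x y σ ≤ -2 ∨ gap y z σ ≤ -2) ∨ (gap z y σ = 1 ∧ gap y x σ = 1)) := by
      refine pp_mono fun σ _ h => ?_
      have g1 := gap_ne hxy σ
      have g2 := gap_ne hyz σ
      have g3 := gap_add x y z σ
      have g4 := gap_swap y z σ
      have g5 := gap_swap x y σ
      omega
    linarith
  have a1 : pp (fun σ : α ≃ Fin (Fintype.card α) => gap z y σ = 1 ∧ gap y x σ = 1) ≤
      pp (fun σ => gap x y σ ≤ -2) := by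
    have s := hSW α z y h4 h3 fun σ => gap y x σ = 1
    unfold pp
    rw [s]
    refine nn_div_le (nn_mono fun σ _ h => ?_)
    rw [gap_trans_swap_left z y x hxz hxy] at h
    have g3 := gap_add x z y σ
    have g4 := gap_swap z x σ
    omega
  have a2 : pp (fun σ : α ≃ Fin (Fintype.card α) => gap z y σ = 1 ∧ gap y x σ = 1) ≤
      pp (fun σ => gap y z σ ≤ -2) := by
    have s := hSW α y x h2 h1 fun σ => gap z y σ = 1
    have e : nn (fun σ : α ≃ Fin (Fintype.card α) => gap z y σ = 1 ∧ gap y x σ = 1) =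
        nn (fun σ => gap y x σ = 1 ∧ gap z y σ = 1) := nn_congr fun σ _ => and_comm
    unfold pp
    rw [e, s]
    refine nn_div_le (nn_mono fun σ _ h => ?_)
    rw [gap_trans_swap_right z y x hyz.symm hxz.symm] at h
    have g3 := gap_add y x z σ
    have g4 := gap_swap z x σ
    omega
  constructor <;> linarith

/-- the theorem on three consecutive elements -/
theorem triple (hSW : S_SWAP) (hSH : S_SH) (hL1 : S_L1) (hL3 : S_L3) (hNC : S_NC) {x y z : α}
    {c d : ℝ} (hd : d = (5 - √5) / 10 + c) (hc0 : 0 ≤ c) (hc : c ≤ 1 / 10000)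
    (hu : 1 / (Fintype.card α : ℝ) ≤ 1 / 10000) (hxy : x ≠ y) (hyz : y ≠ z) (hxz : x ≠ z)
    (b1 : pp (fun σ => gap x y σ < 0) ≤ d) (b2 : pp (fun σ => gap y z σ < 0) ≤ d)
    (b3 : pp (fun σ => gap x z σ < 0) ≤ d) :
    2 - 12 * c - 1 / (Fintype.card α : ℝ) ≤ HH z - HH x ∧
    ∀ w : ℝ, 0 ≤ w → w ≤ 0.001 → HH z - HH x ≤ 2 + w →
      1 - w - 17 * c - 2 * (1 / (Fintype.card α : ℝ)) ≤ HH y - HH x := by
  obtain ⟨-, hd1, hd2⟩ := psi_bound hd hc0 hc
  have hu0 : 0 ≤ 1 / (Fintype.card α : ℝ) := by positivity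
  have hsum : HH z - HH x = (HH y - HH x) + (HH z - HH y) := by ring
  have r1 : ¬ y ≤ x := fun h => by
    have := rev_one (lt_of_le_of_ne h hxy.symm)
    linarith
  have r2 : ¬ z ≤ y := fun h => by
    have := rev_one (lt_of_le_of_ne h hyz.symm)
    linarith
  have r3 : ¬ z ≤ x := fun h => by
    have := rev_one (lt_of_le_of_ne h hxz.symm)
    linarith
  by_cases q1 : x ≤ y
  · have q1' : x < y := lt_of_le_of_ne q1 hxy
    by_cases q2 : y ≤ z
    · have e1 := cmp_ge q1'
      have e2 := cmp_ge (lt_of_le_of_ne q2 hyz)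
      exact ⟨by linarith, fun w h1 h2 h3 => by linarith⟩
    · have e1 := cmpB q1' hxz
      have e2 := (pd hSW hSH hL1 hL3 q2 r2).pl (by linarith) hu
      have e3 := pp_nonneg fun σ : α ≃ Fin (Fintype.card α) => gap y z σ = -1
      have e4 : pp (fun σ : α ≃ Fin (Fintype.card α) => gap y z σ = 1) = pp (fun σ => gap y z σ = -1) := by
        unfold pp
        rw [adj_symm hSW q2 r2]
      rw [← HH_sub] at e2
      rw [e4] at e2
      have e5 : 2.002 ≤ HH z - HH x := by
        rcases e2 with e2 | e2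
        · linarith
        · linarith
      exact ⟨by linarith, fun w h1 h2 h3 => by linarith⟩
  · by_cases q2 : y ≤ z
    · have e1 := cmpC (lt_of_le_of_ne q2 hyz) hxz
      have e2 := (pd hSW hSH hL1 hL3 q1 r1).pl (by linarith) hu
      have e3 := pp_nonneg fun σ : α ≃ Fin (Fintype.card α) => gap x y σ = -1
      have e4 : pp (fun σ : α ≃ Fin (Fintype.card α) => gap x y σ = 1) = pp (fun σ => gap x y σ = -1) := by
        unfold pp
        rw [adj_symm hSW q1 r1]
      rw [← HH_sub] at e2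
      rw [e4] at e2
      have e5 : 2.002 ≤ HH z - HH x := by
        rcases e2 with e2 | e2
        · linarith
        · linarith
      exact ⟨by linarith, fun w h1 h2 h3 => by linarith⟩
    · have P1 := pd hSW hSH hL1 hL3 q1 r1
      have P2 := pd hSW hSH hL1 hL3 q2 r2
      have e1 := P1.pl (by linarith) hu
      have e2 := P2.pl (by linarith) hu
      rw [← HH_sub] at e1 e2
      by_cases good : 1.0235 ≤ HH y - HH x ∨ 1.0235 ≤ HH z - HH y
      · have e5 : 2.0015 ≤ HH z - HH x := by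
          rcases good with g | g
          · rcases e2 with e2 | e2 <;> linarith
          · rcases e1 with e1 | e1 <;> linarith
        exact ⟨by linarith, fun w h1 h2 h3 => by linarith⟩
      · push Not at good
        have e1' : 1 / 5 ≤ pp (fun σ : α ≃ Fin (Fintype.card α) => gap x y σ = 1) := by
          rcases e1 with e1 | e1
          · exact e1.1
          · linarith [good.1]
        have e2' : 1 / 5 ≤ pp (fun σ : α ≃ Fin (Fintype.card α) => gap y z σ = 1) := by
          rcases e2 with e2 | e2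
          · exact e2.1
          · linarith [good.2]
        by_cases q3 : x ≤ z
        · obtain ⟨a, ha0, f1, f2, f3⟩ := facts_D hSW hNC q1 r1 q2 r2 (lt_of_le_of_ne q3 hxz)
          have hD := case_D (u := 1 / (Fintype.card α : ℝ)) P1 P2 hd hc0 hc hu0 b1 b2 e1' e2' f1 f2 f3 ha0
          rw [← HH_sub, ← HH_sub, ← hsum] at hD
          have g1 := P1.Rb
          have g2 := P2.Rb
          refine ⟨by linarith [hD.1], fun w h1 _ h3 => hD.2 w h1 h3⟩
        · have P3 := pd hSW hSH hL1 hL3 q3 r3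
          obtain ⟨f1, f2⟩ := facts_E hSW q1 r1 q2 r2 q3 r3
          have hE := case_E P1 P2 P3 hu0 hu (by linarith) (by linarith) e1' e2' f1 f2
            (by rw [← HH_sub, ← HH_sub, ← HH_sub]; ring)
          rw [← HH_sub, ← HH_sub, ← hsum] at hE
          exact ⟨by linarith, fun w h1 h2 h3 => by linarith⟩

/-- a pair in the right order -/
theorem pair_pos (hSW : S_SWAP) (hSH : S_SH) (hL1 : S_L1) (hL3 : S_L3) {x y : α}
    {c d : ℝ} (hd : d = (5 - √5) / 10 + c) (hc0 : 0 ≤ c) (hc : c ≤ 1 / 10000)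
    (hu : 1 / (Fintype.card α : ℝ) ≤ 1 / 10000) (hxy : x ≠ y)
    (b1 : pp (fun σ => gap x y σ < 0) ≤ d) : HH x < HH y := by
  obtain ⟨-, hd1, hd2⟩ := psi_bound hd hc0 hc
  have r1 : ¬ y ≤ x := fun h => by
    have := rev_one (lt_of_le_of_ne h hxy.symm)
    linarith
  by_cases q1 : x ≤ y
  · have := cmp_ge (lt_of_le_of_ne q1 hxy)
    linarith
  · have e1 := (pd hSW hSH hL1 hL3 q1 r1).pl (by linarith) hu
    rw [← HH_sub] at e1
    rcases e1 with e1 | e1 <;> linarith

end Pool.Agent.Y491.BF
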